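import Pool.Agent.TH828.SD.Phi

/-!
# K4: Serre duality for the Hilbert function (helper828, for project SD of helper179, MP_2a78db_gt)
-/

open scoped Topology Kronecker ComplexOrder
open Filter Matrix Polynomial

noncomputable section

namespace Pool.Agent.TH828.SD
open Pool.Agent.TH179.SD

variable {F : Bun2 → ℤ → ℤ → ℤ} {f : Bun → ℤ → ℤ}

theorem Bq_pos {l : ℤ} (hl : 0 ≤ l) : 0 < Bq l := by
  unfold Bq
  have : (0 : ℚ) ≤ l := by exact_mod_cast hl
  positivity

/-- Step 1 -/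
theorem fifth_diff (D : IndexData F f) (A : Bun) : ∃ K : ℤ, ∀ k : ℤ, K ≤ k →
    (f A (k + 5) : ℚ) = 5 * f A (k + 4) - 10 * f A (k + 3) + 10 * f A (k + 2) - 5 * f A (k + 1) +
      f A k := by
  have h2 : ∀ᶠ p : ℤ × ℤ in atTop, ∀ j ∈ Finset.range 6,
      (F (pX A) (p.1 + j) p.2 : ℚ) = f A (p.1 + j) * Bq p.2 := by
    rw [Filter.eventually_all_finset]
    intro j _
    have := ev_shift (F_pX D A) j 0
    filter_upwards [this] with p hp
    rw [add_zero] at hp
    exact hp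
  obtain ⟨K, hK⟩ := of_ev2 (Q := fun k l => (∑ j ∈ (Finset.range 6).filter (fun j => j % 2 = 0),
      (Nat.choose 5 j : ℤ) * F (pX A) (k + j) l =
      ∑ j ∈ (Finset.range 6).filter (fun j => j % 2 = 1), (Nat.choose 5 j : ℤ) *
        F (pX A) (k + j) l) ∧ ∀ j ∈ Finset.range 6,
      (F (pX A) (k + j) l : ℚ) = f A (k + j) * Bq l) ((koszul (pX A) D).and h2)
  refine ⟨K, fun k hk => ?_⟩
  obtain ⟨h1, h2⟩ := hK k (max K 0) hk (le_max_left _ _)
  have hB := Bq_pos (le_max_right K 0)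
  set l := max K 0
  have e0 := h2 0 (by simp)
  have e1 := h2 1 (by simp)
  have e2 := h2 2 (by simp)
  have e3 := h2 3 (by simp)
  have e4 := h2 4 (by simp)
  have e5 := h2 5 (by simp)
  have hev : (Finset.range 6).filter (fun j => j % 2 = 0) = {0, 2, 4} := by decide
  have hod : (Finset.range 6).filter (fun j => j % 2 = 1) = {1, 3, 5} := by decide
  rw [hev, hod] at h1
  have h3 := congrArg (fun n : ℤ => (n : ℚ)) h1
  simp [Nat.choose] at h3 e0 e1 e2 e3 e4 e5
  rw [e0, e1, e2, e3, e4, e5] at h3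
  have h4 : ((f A (k + 5) : ℚ) - (5 * f A (k + 4) - 10 * f A (k + 3) + 10 * f A (k + 2) -
      5 * f A (k + 1) + f A k)) * Bq l = 0 := by linarith
  rcases mul_eq_zero.1 h4 with h | h
  · linarith
  · exact absurd h hB.ne'

/-- a sequence with vanishing fifth difference is a polynomial -/
theorem poly_of_diff (g : ℤ → ℚ) (K : ℤ) (h : ∀ k : ℤ, K ≤ k →
    g (k + 5) = 5 * g (k + 4) - 10 * g (k + 3) + 10 * g (k + 2) - 5 * g (k + 1) + g k) :
    ∃ P : ℚ[X], P.natDegree ≤ 4 ∧ ∀ k : ℤ, K ≤ k → g k = P.eval (k : ℚ) := by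
  set d0 := g K
  set d1 := g (K + 1) - g K
  set d2 := g (K + 2) - 2 * g (K + 1) + g K
  set d3 := g (K + 3) - 3 * g (K + 2) + 3 * g (K + 1) - g K
  set d4 := g (K + 4) - 4 * g (K + 3) + 6 * g (K + 2) - 4 * g (K + 1) + g K
  set P : ℚ[X] := C d0 + C d1 * (X - C (K : ℚ)) + C (d2 / 2) * (X - C (K : ℚ)) *
    (X - C ((K : ℚ) + 1)) + C (d3 / 6) * (X - C (K : ℚ)) * (X - C ((K : ℚ) + 1)) *
    (X - C ((K : ℚ) + 2)) + C (d4 / 24) * (X - C (K : ℚ)) * (X - C ((K : ℚ) + 1)) *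
    (X - C ((K : ℚ) + 2)) * (X - C ((K : ℚ) + 3)) with hP
  have hev : ∀ x : ℚ, P.eval x = d0 + d1 * (x - K) + d2 / 2 * (x - K) * (x - (K + 1)) +
      d3 / 6 * (x - K) * (x - (K + 1)) * (x - (K + 2)) +
      d4 / 24 * (x - K) * (x - (K + 1)) * (x - (K + 2)) * (x - (K + 3)) := by
    intro x
    rw [hP]
    simp only [eval_add, eval_mul, eval_sub, eval_C, eval_X]
  refine ⟨P, ?_, ?_⟩
  · rw [hP]
    compute_degree
  · have key : ∀ n : ℕ, g (K + n) = P.eval ((K : ℚ) + n) := by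
      intro n
      induction n using Nat.strong_induction_on with
      | _ n ih =>
        rcases Nat.lt_or_ge n 5 with hn | hn
        · rw [hev]
          interval_cases n
          · simp [d0]
          · simp [d0, d1]
          · simp [d0, d1, d2]; ring
          · simp [d0, d1, d2, d3]; ring
          · simp [d0, d1, d2, d3, d4]; ring
        · obtain ⟨m, rfl⟩ : ∃ m, n = m + 5 := ⟨n - 5, by omega⟩
          have h0 := ih m (by omega)
          have h1 := ih (m + 1) (by omega)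
          have h2 := ih (m + 2) (by omega)
          have h3 := ih (m + 3) (by omega)
          have h4 := ih (m + 4) (by omega)
          have hr := h (K + m) (by omega)
          push_cast at h1 h2 h3 h4 ⊢
          rw [← add_assoc] at h1 h2 h3 h4 ⊢
          rw [← add_assoc] at h1 h2 h3 h4 ⊢
          rw [hr, h0, h1, h2, h3, h4]
          simp only [hev]
          ring
    intro k hk
    have := key (k - K).toNat
    have hc : ((k - K).toNat : ℤ) = k - K := Int.toNat_of_nonneg (by omega)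
    rw [hc] at this
    have hc' : (((k - K).toNat : ℕ) : ℚ) = (k : ℚ) - K := by
      have := congrArg (fun n : ℤ => (n : ℚ)) hc
      push_cast at this
      exact_mod_cast this
    rw [hc'] at this
    simpa using this

/-- the polynomial of `ℂP⁴` -/
def BP : ℚ[X] := C (1 / 24) * (X + C 1) * (X + C 2) * (X + C 3) * (X + C 4)

theorem BP_eval (x : ℚ) : BP.eval x = Bq x := by
  unfold BP Bq
  simp only [eval_mul, eval_add, eval_C, eval_X]
  ring

/-- Step 4: the arithmetic -/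
theorem arith (P : ℚ[X]) (hP : P.natDegree ≤ 4) (K l : ℤ) (fb : ℤ → ℚ)
    (hrel : ∀ k : ℤ, K ≤ k → ∑ j ∈ Finset.range 6, (-1 : ℚ) ^ j *
      (P.eval ((k : ℚ) + j) * ∑ i ∈ Finset.range (j + 1), (-1 : ℚ) ^ i * (Nat.choose 5 (j - i) : ℚ) *
        Bq ((l : ℚ) + i) -
      Bq ((k : ℚ) + j) * ∑ i ∈ Finset.range (j + 1), (-1 : ℚ) ^ i * (Nat.choose 5 (j - i) : ℚ) *
        fb (l + i)) = 0)
    (h0 : fb (l + 5) = 5 * fb (l + 4) - 10 * fb (l + 3) + 10 * fb (l + 2) - 5 * fb (l + 1) +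
      fb l)
    (h1 : fb (l + 4) = 5 * fb (l + 3) - 10 * fb (l + 2) + 10 * fb (l + 1) - 5 * fb l +
      fb (l - 1)) :
    fb (l - 1) = P.eval (-(l : ℚ) - 4) := by
  set XX : ℕ → ℚ := fun j => ∑ i ∈ Finset.range (j + 1), (-1 : ℚ) ^ i *
    (Nat.choose 5 (j - i) : ℚ) * Bq ((l : ℚ) + i) with hXX
  set YY : ℕ → ℚ := fun j => ∑ i ∈ Finset.range (j + 1), (-1 : ℚ) ^ i *
    (Nat.choose 5 (j - i) : ℚ) * fb (l + i) with hYY
  set R : ℚ[X] := ∑ j ∈ Finset.range 6, C ((-1 : ℚ) ^ j) * (P.comp (X + C (j : ℚ)) * C (XX j) -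
    BP.comp (X + C (j : ℚ)) * C (YY j)) with hR
  have hRe : ∀ x : ℚ, R.eval x = ∑ j ∈ Finset.range 6, (-1 : ℚ) ^ j *
      (P.eval (x + j) * XX j - Bq (x + j) * YY j) := by
    intro x
    rw [hR, eval_finsetSum]
    refine Finset.sum_congr rfl fun j _ => ?_
    simp only [eval_mul, eval_sub, eval_C, eval_comp, eval_add, eval_X, BP_eval]
  have hR0 : R = 0 := by
    refine Polynomial.eq_zero_of_infinite_isRoot R ?_
    refine Set.infinite_of_injective_forall_mem (f := fun n : ℕ => ((K + n : ℤ) : ℚ)) ?_ ?_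
    · intro a b hab
      have hab' : ((K + a : ℤ) : ℚ) = ((K + b : ℤ) : ℚ) := hab
      have : (K + a : ℤ) = K + b := by exact_mod_cast hab'
      omega
    · intro n
      change R.eval _ = 0
      rw [hRe]
      exact hrel (K + n) (by omega)
  have h4 := hRe (-4)
  rw [hR0, eval_zero] at h4
  have hpe : ∀ x : ℚ, P.eval x = P.coeff 0 + P.coeff 1 * x + P.coeff 2 * x ^ 2 +
      P.coeff 3 * x ^ 3 + P.coeff 4 * x ^ 4 := by
    intro x
    rw [Polynomial.eval_eq_sum_range' (n := 5) (by omega)]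
    simp [Finset.sum_range_succ]
  have hY5 : YY 5 = 0 := by
    simp only [hYY, Finset.sum_range_succ, Finset.sum_range_zero]
    simp [Nat.choose]
    rw [h0]; ring
  have hY4 : YY 4 = fb (l - 1) := by
    simp only [hYY, Finset.sum_range_succ, Finset.sum_range_zero]
    simp [Nat.choose]
    rw [h1]; ring
  have hB : Bq (-4) = 0 ∧ Bq (-4 + 1) = 0 ∧ Bq (-4 + 2) = 0 ∧ Bq (-4 + 3) = 0 ∧ Bq (-4 + 4) = 1 := by
    unfold Bq
    norm_num
  have hX : ∀ j, XX j = ∑ i ∈ Finset.range (j + 1), (-1 : ℚ) ^ i *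
    (Nat.choose 5 (j - i) : ℚ) * Bq ((l : ℚ) + i) := fun j => rfl
  simp only [Finset.sum_range_succ, Finset.sum_range_zero] at h4
  obtain ⟨b0, b1, b2, b3, b4⟩ := hB
  push_cast at h4
  rw [hY5, hY4, add_zero, b0, b1, b2, b3, b4] at h4
  have h5 : fb (l - 1) = P.eval (-4) * XX 0 - P.eval (-4 + 1) * XX 1 + P.eval (-4 + 2) * XX 2 -
      P.eval (-4 + 3) * XX 3 + P.eval (-4 + 4) * XX 4 - P.eval (-4 + 5) * XX 5 := by
    linarith
  rw [h5]
  simp only [hX, Finset.sum_range_succ, Finset.sum_range_zero]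
  simp [Nat.choose]
  simp only [hpe, Bq]
  ring

theorem F_TX (D : IndexData F f) (A : Bun) (j : ℕ) :
    ∀ᶠ p : ℤ × ℤ in atTop, (F (isT (pX A) j 0 0).bun (p.1 + j) p.2 : ℚ) =
      f A (p.1 + j) * ∑ i ∈ Finset.range (j + 1), (-1 : ℚ) ^ i * (Nat.choose 5 (j - i) : ℚ) *
        Bq ((p.2 : ℚ) + i) := by
  have h1 := ev_shift (F_T (pX A) D j) j 0
  have h2 : ∀ᶠ p : ℤ × ℤ in atTop, ∀ i ∈ Finset.range (j + 1),
      (F (pX A) (p.1 + j) (p.2 + i) : ℚ) = f A (p.1 + j) * Bq ((p.2 + i : ℤ) : ℚ) := by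
    rw [Filter.eventually_all_finset]
    intro i _
    exact ev_shift (F_pX D A) j i
  filter_upwards [h1, h2] with p h1 h2
  rw [add_zero] at h1
  rw [h1]
  push_cast
  rw [Finset.mul_sum]
  refine Finset.sum_congr rfl fun i hi => ?_
  rw [h2 i hi]
  push_cast
  ring

theorem F_TY (D : IndexData F f) (A : Bun) (j : ℕ) :
    ∀ᶠ p : ℤ × ℤ in atTop, (F (isT (pY A) j 0 0).bun (p.1 + j) p.2 : ℚ) =
      Bq ((p.1 : ℚ) + j) * ∑ i ∈ Finset.range (j + 1), (-1 : ℚ) ^ i * (Nat.choose 5 (j - i) : ℚ) *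
        f A (p.2 + i) := by
  have h1 := ev_shift (F_T (pY A) D j) j 0
  have h2 : ∀ᶠ p : ℤ × ℤ in atTop, ∀ i ∈ Finset.range (j + 1),
      (F (pY A) (p.1 + j) (p.2 + i) : ℚ) = Bq ((p.1 + j : ℤ) : ℚ) * f A (p.2 + i) := by
    rw [Filter.eventually_all_finset]
    intro i _
    exact ev_shift (F_pY D A) j i
  filter_upwards [h1, h2] with p h1 h2
  rw [add_zero] at h1
  rw [h1]
  push_cast
  rw [Finset.mul_sum]
  refine Finset.sum_congr rfl fun i hi => ?_
  rw [h2 i hi]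
  push_cast
  ring

/-- K4 -/
theorem taskDual : TaskDual := by
  intro F f D
  refine ⟨D.iso, D.sum, D.shift, D.triv, fun A => ?_⟩
  obtain ⟨K1, h1⟩ := fifth_diff D A
  obtain ⟨P, hP, hPe⟩ := poly_of_diff (fun k => (f A k : ℚ)) K1 h1
  obtain ⟨K2, h2⟩ := fifth_diff D A.flat
  obtain ⟨K3, h3⟩ := D.flat A
  have hT : ∀ᶠ p : ℤ × ℤ in atTop, ∀ j ∈ Finset.range 6,
      (F (isT (pX A) j 0 0).bun (p.1 + j) p.2 : ℚ) =
      f A (p.1 + j) * ∑ i ∈ Finset.range (j + 1), (-1 : ℚ) ^ i * (Nat.choose 5 (j - i) : ℚ) *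
        Bq ((p.2 : ℚ) + i) ∧
      (F (isT (pY A.flat) j 0 0).bun (p.1 + j) p.2 : ℚ) =
      Bq ((p.1 : ℚ) + j) * ∑ i ∈ Finset.range (j + 1), (-1 : ℚ) ^ i * (Nat.choose 5 (j - i) : ℚ) *
        f A.flat (p.2 + i) := by
    rw [Filter.eventually_all_finset]
    intro j _
    exact (F_TX D A j).and (F_TY D A.flat j)
  have hrel : ∀ᶠ p : ℤ × ℤ in atTop, ∑ j ∈ Finset.range 6, (-1 : ℚ) ^ j *
      (f A (p.1 + j) * ∑ i ∈ Finset.range (j + 1), (-1 : ℚ) ^ i * (Nat.choose 5 (j - i) : ℚ) *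
        Bq ((p.2 : ℚ) + i) -
      Bq ((p.1 : ℚ) + j) * ∑ i ∈ Finset.range (j + 1), (-1 : ℚ) ^ i * (Nat.choose 5 (j - i) : ℚ) *
        f A.flat (p.2 + i)) = 0 := by
    filter_upwards [diag_rel' D A, hT] with p h1 h2
    have h3 : ∑ j ∈ Finset.range 6, ((F (isT (if decide (j % 2 = 0) then pX A else pY A.flat) j 0
        0).bun (p.1 + j) p.2 : ℚ) - (F (isT (if !decide (j % 2 = 0) then pX A else pY A.flat) j 0
        0).bun (p.1 + j) p.2 : ℚ)) = 0 := by
      rw [Finset.sum_sub_distrib, sub_eq_zero]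
      exact_mod_cast h1
    rw [← h3]
    refine Finset.sum_congr rfl fun j hj => ?_
    rw [← (h2 j hj).1, ← (h2 j hj).2]
    have ht : ∀ c : Bool, c = true → ∀ x y,
        F (isT (if c then pX A else pY A.flat) j 0 0).bun x y = F (isT (pX A) j 0 0).bun x y := by
      intro c hc; subst hc; intros; rfl
    have hf : ∀ c : Bool, c = false → ∀ x y,
        F (isT (if c then pX A else pY A.flat) j 0 0).bun x y =
          F (isT (pY A.flat) j 0 0).bun x y := by
      intro c hc; subst hc; intros; rfl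
    rcases Nat.mod_two_eq_zero_or_one j with h | h
    · rw [Even.neg_one_pow (Nat.even_iff.2 h), one_mul, ht _ (by simp [h]), hf _ (by simp [h])]
    · rw [Odd.neg_one_pow (Nat.odd_iff.2 h), hf (decide (j % 2 = 0)) (by simp [h]),
        ht (!decide (j % 2 = 0)) (by simp [h])]
      ring
  obtain ⟨K4, h4⟩ := of_ev2 (Q := fun k l => ∑ j ∈ Finset.range 6, (-1 : ℚ) ^ j *
      (f A (k + j) * ∑ i ∈ Finset.range (j + 1), (-1 : ℚ) ^ i * (Nat.choose 5 (j - i) : ℚ) *
        Bq ((l : ℚ) + i) -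
      Bq ((k : ℚ) + j) * ∑ i ∈ Finset.range (j + 1), (-1 : ℚ) ^ i * (Nat.choose 5 (j - i) : ℚ) *
        f A.flat (l + i)) = 0) hrel
  refine ⟨P, hP, max (max K1 K2) (max K3 K4), fun k hk => ⟨?_, ?_⟩⟩
  · exact hPe k ((le_max_left _ _).trans ((le_max_left _ _).trans hk))
  · have hk1 : K1 ≤ k := (le_max_left _ _).trans ((le_max_left _ _).trans hk)
    have hk2 : K2 ≤ k := (le_max_right _ _).trans ((le_max_left _ _).trans hk)
    have hk3 : K3 ≤ k := (le_max_left _ _).trans ((le_max_right _ _).trans hk)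
    have hk4 : K4 ≤ k := (le_max_right _ _).trans ((le_max_right _ _).trans hk)
    rw [← h3 k hk3]
    have ha := arith P hP (max K1 K4) (k + 1) (fun n => (f A.flat n : ℚ)) (fun k' hk' => ?_) ?_ ?_
    · simp only [add_sub_cancel_right] at ha
      rw [ha]
      congr 1
      push_cast
      ring
    · have hk5 : K1 ≤ k' := (le_max_left _ _).trans hk'
      rw [← h4 k' (k + 1) ((le_max_right _ _).trans hk') (by omega)]
      refine Finset.sum_congr rfl fun j _ => ?_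
      have := hPe (k' + j) (by omega)
      rw [this]
      push_cast
      rfl
    · exact h2 (k + 1) (by omega)
    · have := h2 k hk2
      simp only [add_sub_cancel_right]
      have e1 : k + 1 + 4 = k + 5 := by ring
      have e2 : k + 1 + 3 = k + 4 := by ring
      have e3 : k + 1 + 2 = k + 3 := by ring
      have e4 : k + 1 + 1 = k + 2 := by ring
      rw [e1, e2, e3, e4]
      exact this

end Pool.Agent.TH828.SD
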