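import Mathlib

/-!
# Creation and annihilation matrices (helper828, for project SD of helper179)

For every `n`, a finite index set `S` with a degree function and matrices `cr i` (`i : Fin n`)
satisfying the canonical anticommutation relations (the exterior algebra of `ℂⁿ`).
-/

open Matrix

noncomputable section

namespace Pool.Agent.TH828.SD

/-- canonical anticommutation relations, with the number grading -/
structure CAR (n : ℕ) where
  S : Type
  fin : Fintype S
  dec : DecidableEq S
  deg : S → ℕ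
  cr : Fin n → Matrix S S ℂ
  anti : ∀ i j, cr i * cr j + cr j * cr i = 0
  rel : ∀ i j, (cr i)ᴴ * cr j + cr j * (cr i)ᴴ = if i = j then 1 else 0
  deg_cr : ∀ i I J, deg I ≠ deg J + 1 → cr i I J = 0
  card : ∀ j, (∑ I, if deg I = j then (1 : ℕ) else 0) = n.choose j

attribute [instance] CAR.fin CAR.dec

/-- the trivial case -/
def car0 : CAR 0 where
  S := Unit
  fin := inferInstance
  dec := inferInstance
  deg _ := 0
  cr i := i.elim0
  anti i := i.elim0
  rel i := i.elim0
  deg_cr i := i.elim0
  card j := by cases j <;> simp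

/-- the inductive step -/
def carS {n : ℕ} (C : CAR n) : CAR (n + 1) where
  S := C.S ⊕ C.S
  fin := inferInstance
  dec := inferInstance
  deg := Sum.elim C.deg fun s => C.deg s + 1
  cr := Fin.cons (fromBlocks 0 0 1 0) fun i => fromBlocks (C.cr i) 0 0 (-C.cr i)
  anti i j := by
    refine Fin.cases ?_ (fun i => ?_) i <;> refine Fin.cases ?_ (fun j => ?_) j
    · simp [fromBlocks_multiply]
    · simp [fromBlocks_multiply, fromBlocks_add]
    · simp [fromBlocks_multiply, fromBlocks_add]
    · simp [fromBlocks_multiply, fromBlocks_add, C.anti i j]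
  rel i j := by
    refine Fin.cases ?_ (fun i => ?_) i <;> refine Fin.cases ?_ (fun j => ?_) j
    · simp [fromBlocks_multiply, fromBlocks_add, fromBlocks_conjTranspose]
    · simp [fromBlocks_multiply, fromBlocks_add, fromBlocks_conjTranspose, (Fin.succ_ne_zero j).symm]
    · simp [fromBlocks_multiply, fromBlocks_add, fromBlocks_conjTranspose, (Fin.succ_ne_zero i)]
    · simp only [Fin.cons_succ, fromBlocks_multiply, fromBlocks_add, fromBlocks_conjTranspose,
        conjTranspose_zero, mul_zero, zero_mul, add_zero, conjTranspose_neg, neg_mul_neg, zero_add,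
        C.rel i j, Fin.succ_inj]
      by_cases h : i = j
      · simp [h]
      · simp [h]
  deg_cr i I J h := by
    refine Fin.cases ?_ (fun i => ?_) i
    · rcases I with I | I <;> rcases J with J | J
      · simp
      · simp
      · simp only [Fin.cons_zero, fromBlocks_apply₂₁]
        rw [Matrix.one_apply_ne]
        rintro rfl
        simp at h
      · simp
    · rcases I with I | I <;> rcases J with J | J
      · simp only [Fin.cons_succ, fromBlocks_apply₁₁]
        exact C.deg_cr i I J (by simpa using h)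
      · simp
      · simp
      · simp only [Fin.cons_succ, fromBlocks_apply₂₂, Matrix.neg_apply]
        rw [C.deg_cr i I J (by simpa using h), neg_zero]
  card j := by
    rw [Fintype.sum_sum_type]
    simp only [Sum.elim_inl, Sum.elim_inr]
    rcases j with _ | j
    · have h1 := C.card 0
      rw [Nat.choose_zero_right] at h1 ⊢
      have h2 : (∑ s, if C.deg s + 1 = 0 then (1 : ℕ) else 0) = 0 :=
        Finset.sum_eq_zero fun s _ => if_neg (Nat.succ_ne_zero _)
      exact (congrArg₂ (· + ·) h1 h2)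
    · have h1 := C.card (j + 1)
      have h2 := C.card j
      have h3 : (∑ s, if C.deg s + 1 = j + 1 then (1 : ℕ) else 0) = n.choose j := by
        rw [← h2]
        exact Finset.sum_congr rfl fun s _ => by simp
      rw [Nat.choose_succ_succ]
      exact (congrArg₂ (· + ·) h1 h3).trans (add_comm _ _)

/-- the relations are realised for every `n` -/
def car : (n : ℕ) → CAR n
  | 0 => car0
  | n + 1 => carS (car n)

namespace CAR

variable {n : ℕ} (C : CAR n)

/-- the Hermitian product -/
def ip (v w : Fin n → ℂ) : ℂ := ∑ i, (starRingEnd ℂ) (v i) * w i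

/-- creation operator of a vector -/
def cre (v : Fin n → ℂ) : Matrix C.S C.S ℂ := ∑ i, v i • C.cr i

theorem cre_cre (v w : Fin n → ℂ) : C.cre v * C.cre w + C.cre w * C.cre v = 0 := by
  unfold cre
  rw [Finset.sum_mul_sum, Finset.sum_mul_sum, Finset.sum_comm (s := Finset.univ)
    (f := fun i j => w i • C.cr i * v j • C.cr j), ← Finset.sum_add_distrib]
  refine Finset.sum_eq_zero fun i _ => ?_
  rw [← Finset.sum_add_distrib]
  refine Finset.sum_eq_zero fun j _ => ?_
  rw [smul_mul_smul_comm, smul_mul_smul_comm, mul_comm (w j), ← smul_add, C.anti, smul_zero]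

theorem cre_sq (v : Fin n → ℂ) : C.cre v * C.cre v = 0 := by
  have h := C.cre_cre v v
  have h2 : (2 : ℂ) • (C.cre v * C.cre v) = 0 := by rw [two_smul]; exact h
  rcases smul_eq_zero.1 h2 with h3 | h3
  · norm_num at h3
  · exact h3

theorem ann_cre (v w : Fin n → ℂ) :
    (C.cre v)ᴴ * C.cre w + C.cre w * (C.cre v)ᴴ = ip v w • (1 : Matrix C.S C.S ℂ) := by
  unfold cre
  rw [conjTranspose_sum]
  simp only [conjTranspose_smul]
  rw [Finset.sum_mul_sum, Finset.sum_mul_sum, Finset.sum_comm (s := Finset.univ)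
    (f := fun i j => w i • C.cr i * star (v j) • (C.cr j)ᴴ), ← Finset.sum_add_distrib]
  have key : ∀ i, ∑ j, star (v i) • (C.cr i)ᴴ * w j • C.cr j +
      ∑ j, w j • C.cr j * star (v i) • (C.cr i)ᴴ =
      (star (v i) * w i) • (1 : Matrix C.S C.S ℂ) := by
    intro i
    rw [← Finset.sum_add_distrib]
    have : ∀ j, star (v i) • (C.cr i)ᴴ * w j • C.cr j + w j • C.cr j * star (v i) • (C.cr i)ᴴ =
        if i = j then (star (v i) * w j) • (1 : Matrix C.S C.S ℂ) else 0 := by
      intro j
      rw [smul_mul_smul_comm, smul_mul_smul_comm, mul_comm (w j), ← smul_add, C.rel]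
      split_ifs <;> simp
    rw [Finset.sum_congr rfl fun j _ => this j]
    simp
  rw [Finset.sum_congr rfl fun i _ => key i, ← Finset.sum_smul]
  rfl

theorem ann_ann (v w : Fin n → ℂ) : (C.cre v)ᴴ * (C.cre w)ᴴ + (C.cre w)ᴴ * (C.cre v)ᴴ = 0 := by
  have h := congrArg conjTranspose (C.cre_cre v w)
  rw [conjTranspose_add, conjTranspose_mul, conjTranspose_mul, conjTranspose_zero] at h
  rw [add_comm]
  exact h

theorem ann_sq (v : Fin n → ℂ) : (C.cre v)ᴴ * (C.cre v)ᴴ = 0 := by
  have h := congrArg conjTranspose (C.cre_sq v)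
  rw [conjTranspose_mul, conjTranspose_zero] at h
  exact h

theorem cre_apply (v : Fin n → ℂ) (I J : C.S) (h : C.deg I ≠ C.deg J + 1) : C.cre v I J = 0 := by
  unfold cre
  rw [Matrix.sum_apply]
  exact Finset.sum_eq_zero fun i _ => by rw [Matrix.smul_apply, C.deg_cr i I J h, smul_zero]

/-- the projection on the part of degree `j` -/
def P (j : ℕ) : Matrix C.S C.S ℂ := diagonal fun I => if C.deg I = j then 1 else 0

/-- the parity -/
def eps : Matrix C.S C.S ℂ := diagonal fun I => (-1) ^ C.deg I

theorem P_herm (j : ℕ) : (C.P j)ᴴ = C.P j := by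
  unfold P
  rw [diagonal_conjTranspose]
  congr 1
  funext I
  by_cases h : C.deg I = j <;> simp [h]

theorem eps_herm : (C.eps)ᴴ = C.eps := by
  unfold eps
  rw [diagonal_conjTranspose]
  congr 1
  funext I
  simp

theorem P_mul_P (j k : ℕ) : C.P j * C.P k = if j = k then C.P j else 0 := by
  unfold P
  rw [diagonal_mul_diagonal]
  by_cases h : j = k
  · subst h
    rw [if_pos rfl]
    congr 1
    funext I
    by_cases h : C.deg I = j <;> simp [h]
  · rw [if_neg h, ← diagonal_zero]
    congr 1
    funext I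
    by_cases h1 : C.deg I = j
    · have : C.deg I ≠ k := fun h2 => h (h1.symm.trans h2)
      simp [h1, h]
    · simp [h1]

theorem eps_sq : C.eps * C.eps = 1 := by
  unfold eps
  rw [diagonal_mul_diagonal, ← diagonal_one]
  congr 1
  funext I
  rw [← pow_add, ← two_mul, pow_mul]
  simp

theorem P_mul_eps (j : ℕ) : C.P j * C.eps = (-1 : ℂ) ^ j • C.P j := by
  unfold P eps
  rw [diagonal_mul_diagonal, ← diagonal_smul]
  congr 1
  funext I
  by_cases h : C.deg I = j <;> simp [h]

theorem eps_mul_P (j : ℕ) : C.eps * C.P j = (-1 : ℂ) ^ j • C.P j := by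
  unfold P eps
  rw [diagonal_mul_diagonal, ← diagonal_smul]
  congr 1
  funext I
  by_cases h : C.deg I = j <;> simp [h]

theorem deg_le (I : C.S) : C.deg I ≤ n := by
  by_contra h
  rw [not_le] at h
  have h1 := C.card (C.deg I)
  rw [Nat.choose_eq_zero_of_lt h] at h1
  have h2 := (Finset.sum_eq_zero_iff.1 h1) I (Finset.mem_univ I)
  simp at h2

theorem sum_P : ∑ j ∈ Finset.range (n + 1), C.P j = 1 := by
  ext I J
  rw [Matrix.sum_apply]
  unfold P
  by_cases h : I = J
  · subst h
    simp only [diagonal_apply_eq, one_apply_eq]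
    rw [Finset.sum_ite_eq, if_pos]
    rw [Finset.mem_range]
    exact Nat.lt_succ_of_le (C.deg_le I)
  · rw [one_apply_ne h]
    exact Finset.sum_eq_zero fun j _ => diagonal_apply_ne _ h

theorem P_succ_mul_cre (j : ℕ) (v : Fin n → ℂ) : C.P (j + 1) * C.cre v = C.cre v * C.P j := by
  ext I J
  unfold P
  rw [diagonal_mul, mul_diagonal]
  by_cases h : C.deg I = C.deg J + 1
  · rw [h]
    by_cases h2 : C.deg J = j <;> simp [h2]
  · rw [C.cre_apply v I J h]; simp

theorem P_zero_mul_cre (v : Fin n → ℂ) : C.P 0 * C.cre v = 0 := by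
  ext I J
  unfold P
  rw [diagonal_mul]
  by_cases h : C.deg I = C.deg J + 1
  · rw [h]; simp
  · rw [C.cre_apply v I J h]; simp

theorem ann_mul_P_succ (j : ℕ) (v : Fin n → ℂ) : (C.cre v)ᴴ * C.P (j + 1) = C.P j * (C.cre v)ᴴ := by
  have h := congrArg conjTranspose (C.P_succ_mul_cre j v)
  rw [conjTranspose_mul, conjTranspose_mul, P_herm, P_herm] at h
  exact h

theorem ann_mul_P_zero (v : Fin n → ℂ) : (C.cre v)ᴴ * C.P 0 = 0 := by
  have h := congrArg conjTranspose (C.P_zero_mul_cre v)
  rw [conjTranspose_mul, conjTranspose_zero, P_herm] at h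
  exact h

theorem eps_cre (v : Fin n → ℂ) : C.eps * C.cre v = -(C.cre v * C.eps) := by
  ext I J
  unfold eps
  rw [diagonal_mul, Matrix.neg_apply, mul_diagonal]
  by_cases h : C.deg I = C.deg J + 1
  · rw [h, pow_succ]; ring
  · rw [C.cre_apply v I J h]; simp

theorem eps_ann (v : Fin n → ℂ) : C.eps * (C.cre v)ᴴ = -((C.cre v)ᴴ * C.eps) := by
  have h := congrArg conjTranspose (C.eps_cre v)
  rw [conjTranspose_mul, conjTranspose_neg, conjTranspose_mul, eps_herm] at h
  rw [h, neg_neg]

/-- Clifford multiplication -/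
def cl (v : Fin n → ℂ) : Matrix C.S C.S ℂ := C.cre v + (C.cre v)ᴴ

theorem cl_herm (v : Fin n → ℂ) : (C.cl v)ᴴ = C.cl v := by
  unfold cl
  rw [conjTranspose_add, conjTranspose_conjTranspose, add_comm]

theorem cl_sq (v : Fin n → ℂ) : C.cl v * C.cl v = ip v v • (1 : Matrix C.S C.S ℂ) := by
  unfold cl
  rw [add_mul, mul_add, mul_add, C.cre_sq, C.ann_sq, ← C.ann_cre]
  abel

theorem eps_cl (v : Fin n → ℂ) : C.eps * C.cl v = -(C.cl v * C.eps) := by
  unfold cl
  rw [mul_add, add_mul, eps_cre, eps_ann, neg_add]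

/-- the projection on the kernel of the annihilation operator of a unit vector -/
def q (y : Fin n → ℂ) : Matrix C.S C.S ℂ := (C.cre y)ᴴ * C.cre y

theorem q_herm (y : Fin n → ℂ) : (C.q y)ᴴ = C.q y := by
  unfold q
  rw [conjTranspose_mul, conjTranspose_conjTranspose]

theorem q_add {y : Fin n → ℂ} (hy : ip y y = 1) : C.q y + C.cre y * (C.cre y)ᴴ = 1 := by
  unfold q
  rw [C.ann_cre, hy, one_smul]

theorem q_idem {y : Fin n → ℂ} (hy : ip y y = 1) : C.q y * C.q y = C.q y := by
  have h := C.q_add hy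
  have h2 : C.q y * (C.cre y * (C.cre y)ᴴ) = 0 := by
    unfold q
    rw [mul_assoc, ← mul_assoc (C.cre y), C.cre_sq, zero_mul, mul_zero]
  calc C.q y * C.q y = C.q y * (C.q y + C.cre y * (C.cre y)ᴴ) := by rw [mul_add, h2, add_zero]
    _ = C.q y := by rw [h, mul_one]

theorem q_P (j : ℕ) (y : Fin n → ℂ) : C.q y * C.P j = C.P j * C.q y := by
  unfold q
  rw [mul_assoc, ← C.P_succ_mul_cre, ← mul_assoc, C.ann_mul_P_succ, mul_assoc]

theorem q_eps (y : Fin n → ℂ) : C.q y * C.eps = C.eps * C.q y := by
  unfold q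
  rw [← mul_assoc C.eps, C.eps_ann, neg_mul, mul_assoc ((C.cre y)ᴴ) C.eps, C.eps_cre, mul_neg,
    neg_neg, mul_assoc]

theorem q_cre {y v : Fin n → ℂ} (h : ip y v = 0) : C.q y * C.cre v = C.cre v * C.q y := by
  unfold q
  have h1 := C.ann_cre y v
  rw [h, zero_smul] at h1
  have h2 := C.cre_cre y v
  have h1' : (C.cre y)ᴴ * C.cre v = -(C.cre v * (C.cre y)ᴴ) := eq_neg_of_add_eq_zero_left h1
  have h2' : C.cre y * C.cre v = -(C.cre v * C.cre y) := eq_neg_of_add_eq_zero_left h2
  rw [mul_assoc, h2', mul_neg, ← mul_assoc, h1', neg_mul, neg_neg, mul_assoc]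

theorem q_ann {y v : Fin n → ℂ} (h : ip y v = 0) : C.q y * (C.cre v)ᴴ = (C.cre v)ᴴ * C.q y := by
  have h := congrArg conjTranspose (C.q_cre h)
  rw [conjTranspose_mul, conjTranspose_mul, q_herm] at h
  exact h.symm

theorem q_cl {y v : Fin n → ℂ} (h : ip y v = 0) : C.q y * C.cl v = C.cl v * C.q y := by
  unfold cl
  rw [mul_add, add_mul, q_cre C h, q_ann C h]

end CAR

end Pool.Agent.TH828.SD
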