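import Pool.Agent.TH828.SD.Steps2

/-!
# Step 2: the relation of the diagonal (helper828, for project SD of helper179)
-/

open scoped Topology Kronecker ComplexOrder
open Filter Matrix

noncomputable section

namespace Pool.Agent.TH828.SD
open Pool.Agent.TH179.SD

theorem neg_kron {S S' ι κ : Type} (M : Matrix S S' ℂ)
    (N : Matrix ι κ ℂ) : (-M) ⊗ₖ N = -(M ⊗ₖ N) := by
  ext p p'
  simp

theorem kron_neg {S S' ι κ : Type} (M : Matrix S S' ℂ)
    (N : Matrix ι κ ℂ) : M ⊗ₖ (-N) = -(M ⊗ₖ N) := by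
  ext p p'
  simp

section

variable {F : Bun2 → ℤ → ℤ → ℤ} {f : Bun → ℤ → ℤ} (B1 B2 : Bun2)

/-- one of the two blocks -/
def blk (c : Bool) (z : Z × Z) : Matrix (B1.ι ⊕ B2.ι) (B1.ι ⊕ B2.ι) ℂ :=
  fromBlocks (if c then B1.e z else 0) 0 0 (if c then 0 else B2.e z)

theorem blk_true (z : Z × Z) : blk B1 B2 true z = fromBlocks (B1.e z) 0 0 0 := by simp [blk]

theorem blk_false (z : Z × Z) : blk B1 B2 false z = fromBlocks 0 0 0 (B2.e z) := by simp [blk]

/-- the weights -/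
def wa : B1.ι ⊕ B2.ι → ℤ := Sum.elim B1.a B2.a

/-- the weights -/
def wb : B1.ι ⊕ B2.ι → ℤ := Sum.elim B1.b B2.b

theorem isBlk (c : Bool) : IsP (wa B1 B2) (wb B1 B2) (blk B1 B2 c) := by
  cases c with
  | true =>
    have h : blk B1 B2 true = fun z => fromBlocks (B1.e z) 0 0 0 := funext (blk_true B1 B2)
    rw [h]
    refine ⟨B1.cont.matrix_fromBlocks continuous_const continuous_const continuous_const,
      fun z => ?_, fun z => ?_, ?_⟩
    · rw [fromBlocks_multiply]; simp [B1.idem]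
    · rw [fromBlocks_conjTranspose]; simp [B1.herm]
    · exact Eqv.blocks B1.equiv Eqv.zero Eqv.zero Eqv.zero
  | false =>
    have h : blk B1 B2 false = fun z => fromBlocks 0 0 0 (B2.e z) := funext (blk_false B1 B2)
    rw [h]
    refine ⟨Continuous.matrix_fromBlocks continuous_const continuous_const continuous_const
      B2.cont, fun z => ?_, fun z => ?_, ?_⟩
    · rw [fromBlocks_multiply]; simp [B2.idem]
    · rw [fromBlocks_conjTranspose]; simp [B2.herm]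
    · exact Eqv.blocks Eqv.zero Eqv.zero Eqv.zero B2.equiv

/-- the block diagonal projection -/
def EE (z : Z × Z) : Matrix (B1.ι ⊕ B2.ι) (B1.ι ⊕ B2.ι) ℂ := fromBlocks (B1.e z) 0 0 (B2.e z)

theorem isEE : IsP (wa B1 B2) (wb B1 B2) (EE B1 B2) := by
  refine ⟨B1.cont.matrix_fromBlocks continuous_const continuous_const B2.cont,
    fun z => ?_, fun z => ?_, ?_⟩
  · rw [EE, fromBlocks_multiply]; simp [B1.idem, B2.idem]
  · rw [EE, fromBlocks_conjTranspose]; simp [B1.herm, B2.herm]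
  · exact Eqv.blocks B1.equiv Eqv.zero Eqv.zero B2.equiv

/-- the pieces of the total bundle -/
theorem isX (c : Bool) (j : ℕ) :
    IsP (fun p : K5.S × (B1.ι ⊕ B2.ι) => (K5.deg p.1 : ℤ) + wa B1 B2 p.2)
      (fun p : K5.S × (B1.ι ⊕ B2.ι) => 0 + wb B1 B2 p.2)
      (fun z => (K5.P j * K5.q (yy z)) ⊗ₖ blk B1 B2 c z) :=
  isP_kron (isP_Pq j (fun I => (K5.deg I : ℤ)) (fun _ => 0) j 0 (fun I h => by rw [h])
    (fun _ _ => rfl)) (isBlk B1 B2 c)

theorem Pq_ne {j : ℕ} {z : Z × Z} {I J : K5.S} (hne : (K5.P j * K5.q (yy z)) I J ≠ 0) :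
    K5.deg I = j ∧ K5.deg J = j := by
  unfold CAR.P at hne
  rw [diagonal_mul] at hne
  have h1 : K5.deg I = j := by
    by_contra h; rw [if_neg h, zero_mul] at hne; exact hne rfl
  refine ⟨h1, ?_⟩
  by_contra h
  rw [q_apply K5 _ (fun h' => h (h'.symm.trans h1)), mul_zero] at hne; exact hne rfl

theorem eqv_Pq (j : ℕ) {α β α' β' : K5.S → ℤ}
    (h : ∀ I J, K5.deg I = j → K5.deg J = j → α I = α' J ∧ β I = β' J) :
    Eqv α β α' β' fun z => K5.P j * K5.q (yy z) := by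
  have h1 := (isP_Pq j (fun _ => 0) (fun _ => 0) 0 0 (fun _ _ => rfl) (fun _ _ => rfl)).eqv
  refine h1.weights fun z I J hne => ?_
  obtain ⟨h2, h3⟩ := Pq_ne hne
  rw [(h I J h2 h3).1, (h I J h2 h3).2]
  simp

theorem F_X (D : IndexData F f) (c : Bool) (j : ℕ) :
    ∀ᶠ p : ℤ × ℤ in atTop, F (isX B1 B2 c j).bun p.1 p.2 =
      F (isT (if c then B1 else B2) j 0 0).bun (p.1 + j) p.2 := by
  have hidem : ∀ z, (K5.P j * K5.q (yy z)) * (K5.P j * K5.q (yy z)) = K5.P j * K5.q (yy z) :=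
    (isP_Pq j (fun _ => 0) (fun _ => 0) 0 0 (fun _ _ => rfl) (fun _ _ => rfl)).idem
  have hherm : ∀ z, (K5.P j * K5.q (yy z))ᴴ = K5.P j * K5.q (yy z) :=
    (isP_Pq j (fun _ => 0) (fun _ => 0) 0 0 (fun _ _ => rfl) (fun _ _ => rfl)).herm
  have hcont : Continuous fun z => K5.P j * K5.q (yy z) :=
    (isP_Pq j (fun _ => 0) (fun _ => 0) 0 0 (fun _ _ => rfl) (fun _ _ => rfl)).cont
  have heqv : Eqv (fun _ => (j : ℤ)) (fun _ => 0) (fun I => (K5.deg I : ℤ)) (fun _ => 0)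
      (fun z => K5.P j * K5.q (yy z)) := eqv_Pq j fun I J h1 h2 => by rw [h2]; exact ⟨rfl, rfl⟩
  cases c with
  | true =>
    have h1 := F_iso D (isX B1 B2 true j) (isT B1 j j 0)
      (fun z => (K5.P j * K5.q (yy z)) ⊗ₖ (Matrix.fromCols (B1.e z) (0 : Matrix B1.ι B2.ι ℂ)))
      ?_ ?_ ?_ ?_
    · filter_upwards [h1, F_T_shift B1 D j j 0] with p h1 h2
      rw [h1, h2, add_zero]
    · refine continuous_kron hcont (continuous_matrix fun i k => ?_)
      rcases k with k | k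
      · exact B1.cont.matrix_elem i k
      · exact continuous_const
    · refine heqv.kron ?_
      intro s t z i k
      rcases k with k | k
      · exact B1.equiv s t z i k
      · simp
    · intro z
      rw [Matrix.conjTranspose_kronecker, ← Matrix.mul_kronecker_mul, hherm, hidem,
        conjTranspose_fromCols_eq_fromRows_conjTranspose, fromRows_mul_fromCols, B1.herm, B1.idem,
        blk_true]
      simp
    · intro z
      rw [Matrix.conjTranspose_kronecker, ← Matrix.mul_kronecker_mul, hherm, hidem,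
        conjTranspose_fromCols_eq_fromRows_conjTranspose, fromCols_mul_fromRows, B1.herm, B1.idem]
      simp
  | false =>
    have h1 := F_iso D (isX B1 B2 false j) (isT B2 j j 0)
      (fun z => (K5.P j * K5.q (yy z)) ⊗ₖ (Matrix.fromCols (0 : Matrix B2.ι B1.ι ℂ) (B2.e z)))
      ?_ ?_ ?_ ?_
    · filter_upwards [h1, F_T_shift B2 D j j 0] with p h1 h2
      rw [h1, h2, add_zero]
    · refine continuous_kron hcont (continuous_matrix fun i k => ?_)
      rcases k with k | k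
      · exact continuous_const
      · exact B2.cont.matrix_elem i k
    · refine heqv.kron ?_
      intro s t z i k
      rcases k with k | k
      · simp
      · exact B2.equiv s t z i k
    · intro z
      rw [Matrix.conjTranspose_kronecker, ← Matrix.mul_kronecker_mul, hherm, hidem,
        conjTranspose_fromCols_eq_fromRows_conjTranspose, fromRows_mul_fromCols, B2.herm, B2.idem,
        blk_false]
      simp
    · intro z
      rw [Matrix.conjTranspose_kronecker, ← Matrix.mul_kronecker_mul, hherm, hidem,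
        conjTranspose_fromCols_eq_fromRows_conjTranspose, fromCols_mul_fromRows, B2.herm, B2.idem]
      simp

/-- the grading on the two blocks -/
def tau : Matrix (B1.ι ⊕ B2.ι) (B1.ι ⊕ B2.ι) ℂ := fromBlocks 1 0 0 (-1)

theorem blk_even (z : Z × Z) : blk B1 B2 true z = (1 / 2 : ℂ) • ((1 + tau B1 B2) * EE B1 B2 z) := by
  rw [blk_true, tau, EE, ← fromBlocks_one, fromBlocks_add, fromBlocks_multiply, fromBlocks_smul]
  congr 1
  · rw [Matrix.mul_zero, add_zero, add_mul, one_mul, ← two_smul ℂ, smul_smul]; norm_num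
  · simp
  · simp
  · simp

theorem blk_odd (z : Z × Z) : blk B1 B2 false z = (1 / 2 : ℂ) • ((1 - tau B1 B2) * EE B1 B2 z) := by
  rw [blk_false, tau, EE, ← fromBlocks_one, sub_eq_add_neg, fromBlocks_neg, fromBlocks_add,
    fromBlocks_multiply, fromBlocks_smul]
  congr 1
  · simp
  · simp
  · simp
  · rw [neg_neg, Matrix.mul_zero, zero_add, add_mul, one_mul, ← two_smul ℂ, smul_smul]; norm_num

theorem tau_sq : tau B1 B2 * tau B1 B2 = 1 := by
  rw [tau, fromBlocks_multiply]; simp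

theorem eps_eq : K5.eps = ∑ j ∈ Finset.range 6, (-1 : ℂ) ^ j • K5.P j := by
  calc K5.eps = K5.eps * ∑ j ∈ Finset.range 6, K5.P j := by rw [K5.sum_P, mul_one]
    _ = _ := by
      rw [Finset.mul_sum]
      exact Finset.sum_congr rfl fun j _ => K5.eps_mul_P j

theorem one_eq : (1 : Matrix K5.S K5.S ℂ) = ∑ j ∈ Finset.range 6, K5.P j := K5.sum_P.symm

/-- the total bundle -/
theorem isTot :
    IsP (fun p : K5.S × (B1.ι ⊕ B2.ι) => (K5.deg p.1 : ℤ) + wa B1 B2 p.2)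
      (fun p : K5.S × (B1.ι ⊕ B2.ι) => 0 + wb B1 B2 p.2)
      (fun z => (K5.q (yy z)) ⊗ₖ EE B1 B2 z) :=
  isP_kron ⟨continuous_q K5, fun z => K5.q_idem (ip_yy z), fun _ => K5.q_herm _,
    eqv_q K5 (fun n => (n : ℤ)) (fun _ => 0)⟩ (isEE B1 B2)

theorem tot_decomp (s : ℂ) (z : Z × Z) :
    ∑ j ∈ Finset.range 6, (K5.P j * K5.q (yy z)) ⊗ₖ
      ((1 / 2 : ℂ) • ((1 + (s * (-1) ^ j) • tau B1 B2) * EE B1 B2 z)) =
    (1 / 2 : ℂ) • ((1 + s • (K5.eps ⊗ₖ tau B1 B2)) * ((K5.q (yy z)) ⊗ₖ EE B1 B2 z)) := by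
  have h1 : (1 + s • (K5.eps ⊗ₖ tau B1 B2)) * ((K5.q (yy z)) ⊗ₖ EE B1 B2 z) =
      K5.q (yy z) ⊗ₖ EE B1 B2 z + s • ((K5.eps * K5.q (yy z)) ⊗ₖ (tau B1 B2 * EE B1 B2 z)) := by
    rw [add_mul, one_mul, smul_mul_assoc, ← Matrix.mul_kronecker_mul]
  have h2 : K5.q (yy z) = ∑ j ∈ Finset.range 6, K5.P j * K5.q (yy z) := by
    rw [← Finset.sum_mul, ← one_eq, one_mul]
  have h3 : K5.eps * K5.q (yy z) = ∑ j ∈ Finset.range 6, (-1 : ℂ) ^ j • (K5.P j * K5.q (yy z)) := by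
    rw [eps_eq, Finset.sum_mul]
    exact Finset.sum_congr rfl fun j _ => by rw [smul_mul_assoc]
  rw [h1, h3]
  nth_rewrite 2 [h2]
  rw [sum_kron, sum_kron, Finset.smul_sum, ← Finset.sum_add_distrib, Finset.smul_sum]
  refine Finset.sum_congr rfl fun j _ => ?_
  rw [Matrix.kronecker_smul, add_mul, one_mul, Matrix.kronecker_add, Matrix.smul_kronecker,
    smul_mul_assoc, Matrix.kronecker_smul, smul_smul]

theorem ip_sg (z : Z × Z) : ∃ r : ℝ, 0 ≤ r ∧ CAR.ip (sg z) (sg z) = (r : ℂ) ∧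
    (r = 0 → sg z = 0) := by
  refine ⟨∑ i, ‖sg z i‖ ^ 2, Finset.sum_nonneg fun i _ => sq_nonneg _, ip_self _, fun h => ?_⟩
  rw [Finset.sum_eq_zero_iff_of_nonneg fun i _ => sq_nonneg _] at h
  funext i
  have := h i (Finset.mem_univ i)
  rw [Pi.zero_apply]
  exact norm_eq_zero.1 (pow_eq_zero_iff (two_ne_zero)|>.1 this)

/-- Step 2, for abstract data -/
theorem diag_rel (D : IndexData F f) (φ : Z × Z → Matrix B2.ι B1.ι ℂ) (hφc : Continuous φ)
    (hφe : Eqv B2.a B2.b B1.a B1.b φ) (h1 : ∀ z, B2.e z * φ z = φ z)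
    (h2 : ∀ z, φ z * B1.e z = φ z)
    (h3 : ∀ z, sg z = 0 → (φ z)ᴴ * φ z = B1.e z ∧ φ z * (φ z)ᴴ = B2.e z) :
    ∀ᶠ p : ℤ × ℤ in atTop,
      ∑ j ∈ Finset.range 6, F (isT (if decide (j % 2 = 0) then B1 else B2) j 0 0).bun (p.1 + j) p.2 =
      ∑ j ∈ Finset.range 6, F (isT (if !decide (j % 2 = 0) then B1 else B2) j 0 0).bun
        (p.1 + j) p.2 := by
  have h1' : ∀ z, (φ z)ᴴ * B2.e z = (φ z)ᴴ := by
    intro z
    have := congrArg conjTranspose (h1 z)
    rwa [conjTranspose_mul, B2.herm] at this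
  have h2' : ∀ z, B1.e z * (φ z)ᴴ = (φ z)ᴴ := by
    intro z
    have := congrArg conjTranspose (h2 z)
    rwa [conjTranspose_mul, B1.herm] at this
  -- the pieces
  have horth : ∀ c : ℕ → Bool, ∀ i ∈ Finset.range 6, ∀ j ∈ Finset.range 6, i ≠ j → ∀ z : Z × Z,
      ((K5.P i * K5.q (yy z)) ⊗ₖ blk B1 B2 (c i) z) *
        ((K5.P j * K5.q (yy z)) ⊗ₖ blk B1 B2 (c j) z) = 0 := by
    intro c i _ j _ hij z
    rw [← Matrix.mul_kronecker_mul, mul_assoc, ← mul_assoc (K5.q (yy z)), K5.q_P,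
      mul_assoc (K5.P j), ← mul_assoc (K5.P i), K5.P_mul_P, if_neg hij, zero_mul,
      Matrix.zero_kronecker]
  have hs0 := isP_sum (Finset.range 6)
    (fun j z => (K5.P j * K5.q (yy z)) ⊗ₖ blk B1 B2 (decide (j % 2 = 0)) z)
    (fun j => isX B1 B2 (decide (j % 2 = 0)) j) (horth fun j => decide (j % 2 = 0))
  have hs1 := isP_sum (Finset.range 6)
    (fun j z => (K5.P j * K5.q (yy z)) ⊗ₖ blk B1 B2 (!decide (j % 2 = 0)) z)
    (fun j => isX B1 B2 (!decide (j % 2 = 0)) j) (horth fun j => !decide (j % 2 = 0))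
  -- the operator
  have hΦc : Continuous fun z => (fromBlocks 0 (φ z)ᴴ (φ z) 0 :
      Matrix (B1.ι ⊕ B2.ι) (B1.ι ⊕ B2.ι) ℂ) :=
    Continuous.matrix_fromBlocks continuous_const hφc.matrix_conjTranspose hφc continuous_const
  have hΦe : Eqv (wa B1 B2) (wb B1 B2) (wa B1 B2) (wb B1 B2) fun z =>
      (fromBlocks 0 (φ z)ᴴ (φ z) 0 : Matrix (B1.ι ⊕ B2.ι) (B1.ι ⊕ B2.ι) ℂ) :=
    Eqv.blocks Eqv.zero hφe.ct hφe Eqv.zero
  have hc1 : Continuous fun z => K5.cre (sg z) := continuous_cre K5 continuous_sg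
  have hc2 : Continuous fun z => K5.cl (sg z) := hc1.add hc1.matrix_conjTranspose
  have hq1 : Eqv (fun I => (K5.deg I : ℤ)) (fun _ => 0) (fun I => (K5.deg I : ℤ)) (fun _ => 0)
      (fun z => K5.cre (sg z)) := by
    refine eqv_cre K5 (m := 1) (n := 0) sg_rot fun I J h => ⟨?_, by ring⟩
    rw [h]; push_cast; ring
  have hq2 : Eqv (fun I => (K5.deg I : ℤ)) (fun _ => 0) (fun I => (K5.deg I : ℤ)) (fun _ => 0)
      (fun z => K5.cl (sg z)) := hq1.add hq1.ct
  have hq3 : Eqv (fun I => (K5.deg I : ℤ)) (fun _ => 0) (fun I => (K5.deg I : ℤ)) (fun _ => 0)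
      (fun _ => K5.eps) := Eqv.diag _
  have key := odd_iso D (e := fun z => (K5.q (yy z)) ⊗ₖ EE B1 B2 z)
    (d := fun z => K5.cl (sg z) ⊗ₖ (1 : Matrix (B1.ι ⊕ B2.ι) (B1.ι ⊕ B2.ι) ℂ) +
      K5.eps ⊗ₖ (fromBlocks 0 (φ z)ᴴ (φ z) 0 : Matrix (B1.ι ⊕ B2.ι) (B1.ι ⊕ B2.ι) ℂ))
    (γ := K5.eps ⊗ₖ tau B1 B2)
    (isTot B1 B2) ((continuous_kron hc2 continuous_const).add (continuous_kron continuous_const hΦc))
    ((hq2.kron Eqv.one).add (hq3.kron hΦe)) ?_ ?_ ?_ ?_ hs0 hs1 ?_ ?_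
  · have h0' := F_sum D (Finset.range 6)
      (fun j z => (K5.P j * K5.q (yy z)) ⊗ₖ blk B1 B2 (decide (j % 2 = 0)) z)
      (fun j => isX B1 B2 (decide (j % 2 = 0)) j) hs0 (fun z => rfl)
      (horth fun j => decide (j % 2 = 0))
    have h1' := F_sum D (Finset.range 6)
      (fun j z => (K5.P j * K5.q (yy z)) ⊗ₖ blk B1 B2 (!decide (j % 2 = 0)) z)
      (fun j => isX B1 B2 (!decide (j % 2 = 0)) j) hs1 (fun z => rfl)
      (horth fun j => !decide (j % 2 = 0))
    have hall : ∀ᶠ p : ℤ × ℤ in atTop, ∀ j ∈ Finset.range 6,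
        F (isX B1 B2 (decide (j % 2 = 0)) j).bun p.1 p.2 =
          F (isT (if decide (j % 2 = 0) then B1 else B2) j 0 0).bun (p.1 + j) p.2 ∧
        F (isX B1 B2 (!decide (j % 2 = 0)) j).bun p.1 p.2 =
          F (isT (if !decide (j % 2 = 0) then B1 else B2) j 0 0).bun (p.1 + j) p.2 := by
      rw [Filter.eventually_all_finset]
      intro j _
      exact (F_X B1 B2 D _ j).and (F_X B1 B2 D _ j)
    filter_upwards [key, h0', h1', hall] with p h1 h2 h3 h4
    rw [h2, h3] at h1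
    rw [← Finset.sum_congr rfl fun j hj => (h4 j hj).1, h1]
    exact Finset.sum_congr rfl fun j hj => (h4 j hj).2
  · intro z
    simp only [add_mul, mul_add, ← Matrix.mul_kronecker_mul, mul_one, one_mul, K5.q_eps,
      K5.q_cl (ip_yy_sg z), EE, fromBlocks_multiply, h1', h2, h1, h2', Matrix.zero_mul,
      Matrix.mul_zero, add_zero, zero_add]
  · intro z
    simp only [← Matrix.mul_kronecker_mul, K5.q_eps, EE, tau, fromBlocks_multiply,
      Matrix.zero_mul, Matrix.mul_zero, add_zero, zero_add, one_mul, mul_one, neg_mul, mul_neg]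
  · intro z
    simp only [add_mul, mul_add, ← Matrix.mul_kronecker_mul, mul_one, one_mul, tau,
      fromBlocks_multiply, Matrix.zero_mul, Matrix.mul_zero, add_zero, zero_add, mul_neg,
      K5.eps_cl, neg_kron, neg_add, K5.eps_sq]
    congr 1
    rw [← kron_neg, fromBlocks_neg]
    simp
  · intro z
    obtain ⟨r, hr, hr2, hr3⟩ := ip_sg z
    set Φ : Matrix (B1.ι ⊕ B2.ι) (B1.ι ⊕ B2.ι) ℂ := fromBlocks 0 (φ z)ᴴ (φ z) 0 with hΦ
    have hΦh : Φᴴ = Φ := by rw [hΦ, fromBlocks_conjTranspose]; simp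
    have hΦE : Φ * EE B1 B2 z = EE B1 B2 z * Φ := by
      simp only [hΦ, EE, fromBlocks_multiply, h1', h2, h1, h2', Matrix.zero_mul,
        Matrix.mul_zero, add_zero, zero_add]
    have hdd : (K5.cl (sg z) ⊗ₖ (1 : Matrix (B1.ι ⊕ B2.ι) (B1.ι ⊕ B2.ι) ℂ) + K5.eps ⊗ₖ Φ) *
        (K5.cl (sg z) ⊗ₖ (1 : Matrix (B1.ι ⊕ B2.ι) (B1.ι ⊕ B2.ι) ℂ) + K5.eps ⊗ₖ Φ) =
        (r : ℂ) • (1 : Matrix (K5.S × (B1.ι ⊕ B2.ι)) (K5.S × (B1.ι ⊕ B2.ι)) ℂ) +
        ((1 : Matrix K5.S K5.S ℂ) ⊗ₖ Φ) * ((1 : Matrix K5.S K5.S ℂ) ⊗ₖ Φ) := by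
      rw [add_mul, mul_add, mul_add]
      simp only [← Matrix.mul_kronecker_mul, mul_one, one_mul, K5.cl_sq, hr2, K5.eps_cl, neg_kron,
        K5.eps_sq, Matrix.smul_kronecker, Matrix.one_kronecker_one]
      abel
    rw [hdd]
    rcases hr.lt_or_eq with hr | hr
    · refine det_aux ((isTot B1 B2).idem z) ?_ ?_ hr
      · rw [Matrix.conjTranspose_kronecker, conjTranspose_one, hΦh]
      · rw [← Matrix.mul_kronecker_mul, ← Matrix.mul_kronecker_mul, one_mul, mul_one, hΦE]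
    · have hs := hr3 hr.symm
      obtain ⟨h4, h5⟩ := h3 z hs
      have hΦ2 : Φ * Φ = EE B1 B2 z := by
        rw [hΦ, EE, fromBlocks_multiply, h4, h5]; simp
      rw [← hr, Complex.ofReal_zero, zero_smul, zero_add, ← Matrix.mul_kronecker_mul, hΦ2,
        ← Matrix.mul_kronecker_mul, one_mul, one_mul, (isEE B1 B2).idem, add_sub_cancel,
        Matrix.det_one]
      exact one_ne_zero
  · intro z
    have := tot_decomp B1 B2 1 z
    rw [one_smul] at this
    rw [← this]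
    refine Finset.sum_congr rfl fun j _ => ?_
    rcases Nat.mod_two_eq_zero_or_one j with h | h
    · rw [Even.neg_one_pow (Nat.even_iff.2 h), mul_one, one_smul, ← blk_even]
      simp [h]
    · rw [Odd.neg_one_pow (Nat.odd_iff.2 h), one_mul, neg_smul, one_smul, ← sub_eq_add_neg,
        ← blk_odd]
      simp [h]
  · intro z
    have := tot_decomp B1 B2 (-1) z
    rw [neg_smul, one_smul, ← sub_eq_add_neg] at this
    rw [← this]
    refine Finset.sum_congr rfl fun j _ => ?_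
    rcases Nat.mod_two_eq_zero_or_one j with h | h
    · rw [Even.neg_one_pow (Nat.even_iff.2 h), mul_one, neg_smul, one_smul, ← sub_eq_add_neg,
        ← blk_odd]
      simp [h]
    · rw [Odd.neg_one_pow (Nat.odd_iff.2 h), neg_mul_neg, one_mul, one_smul, ← blk_even]
      simp [h]

end

end Pool.Agent.TH828.SD
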