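import Pool.Agent.TH828.SD.Car
import Pool.Agent.TH179.SD.Kth

/-!
# Equivariant families of matrices over `S⁹ × S⁹` (helper828, for project SD of helper179)
-/

open scoped Topology Kronecker
open Filter Matrix

noncomputable section

namespace Pool.Agent.TH828.SD
open Pool.Agent.TH179.SD

/-- equivariance -/
def Eqv {ι κ : Type} (a b : ι → ℤ) (a' b' : κ → ℤ) (u : Z × Z → Matrix ι κ ℂ) : Prop :=
  ∀ (s t : Circle) (z : Z × Z) i j, u (rot s z.1, rot t z.2) i j =
    (s : ℂ) ^ (a i - a' j) * (t : ℂ) ^ (b i - b' j) * u z i j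

section

variable {ι κ μ : Type} {a b : ι → ℤ} {a' b' : κ → ℤ} {a'' b'' : μ → ℤ}

theorem Eqv.mul [Fintype κ] {u : Z × Z → Matrix ι κ ℂ} {v : Z × Z → Matrix κ μ ℂ}
    (hu : Eqv a b a' b' u) (hv : Eqv a' b' a'' b'' v) :
    Eqv a b a'' b'' fun z => u z * v z := by
  intro s t z i k
  simp only [Matrix.mul_apply, Finset.mul_sum]
  refine Finset.sum_congr rfl fun j _ => ?_
  rw [hu s t z i j, hv s t z j k]
  have h1 : a i - a'' k = (a i - a' j) + (a' j - a'' k) := by ring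
  have h2 : b i - b'' k = (b i - b' j) + (b' j - b'' k) := by ring
  rw [h1, h2, zpow_add₀ (Circle.coe_ne_zero s), zpow_add₀ (Circle.coe_ne_zero t)]
  ring

theorem Eqv.add {u v : Z × Z → Matrix ι κ ℂ}
    (hu : Eqv a b a' b' u) (hv : Eqv a b a' b' v) : Eqv a b a' b' fun z => u z + v z := by
  intro s t z i k
  simp only [Matrix.add_apply]
  rw [hu s t z i k, hv s t z i k]; ring

theorem Eqv.sub {u v : Z × Z → Matrix ι κ ℂ}
    (hu : Eqv a b a' b' u) (hv : Eqv a b a' b' v) : Eqv a b a' b' fun z => u z - v z := by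
  intro s t z i k
  simp only [Matrix.sub_apply]
  rw [hu s t z i k, hv s t z i k]; ring

theorem Eqv.smul {u : Z × Z → Matrix ι κ ℂ} (c : ℂ)
    (hu : Eqv a b a' b' u) : Eqv a b a' b' fun z => c • u z := by
  intro s t z i k
  simp only [Matrix.smul_apply, smul_eq_mul]
  rw [hu s t z i k]; ring

theorem Eqv.ct {u : Z × Z → Matrix ι κ ℂ}
    (hu : Eqv a b a' b' u) : Eqv a' b' a b fun z => (u z)ᴴ := by
  intro s t z i k
  simp only [Matrix.conjTranspose_apply]
  rw [hu s t z k i]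
  simp only [← starRingEnd_apply]
  rw [map_mul, map_mul, map_zpow₀, map_zpow₀, ← Circle.coe_inv_eq_conj, ← Circle.coe_inv_eq_conj, Circle.coe_inv,
    Circle.coe_inv, _root_.inv_zpow, _root_.inv_zpow, ← _root_.zpow_neg, ← _root_.zpow_neg, neg_sub, neg_sub]

theorem Eqv.diag [DecidableEq ι] (d : ι → ℂ) : Eqv a b a b fun _ => diagonal d := by
  intro s t z i k
  by_cases h : i = k
  · subst h; simp
  · simp [h]

theorem Eqv.one [DecidableEq ι] : Eqv a b a b fun _ => (1 : Matrix ι ι ℂ) := by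
  rw [← diagonal_one]
  exact Eqv.diag _

theorem Eqv.inv [Fintype ι] [DecidableEq ι] {M : Z × Z → Matrix ι ι ℂ} (h : Eqv a b a b M)
    (hM : ∀ z, (M z).det ≠ 0) : Eqv a b a b fun z => (M z)⁻¹ := by
  intro s t z
  let W : Matrix ι ι ℂ := Matrix.of fun i j =>
    (s : ℂ) ^ (a i - a j) * (t : ℂ) ^ (b i - b j) * (M z)⁻¹ i j
  have hW : W * M (rot s z.1, rot t z.2) = 1 := by
    have h1 : (M z)⁻¹ * M z = 1 := Matrix.nonsing_inv_mul _ (isUnit_iff_ne_zero.2 (hM z))
    ext i k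
    have h2 : (W * M (rot s z.1, rot t z.2)) i k =
        (s : ℂ) ^ (a i - a k) * (t : ℂ) ^ (b i - b k) * ((M z)⁻¹ * M z) i k := by
      simp only [Matrix.mul_apply, Finset.mul_sum]
      refine Finset.sum_congr rfl fun j _ => ?_
      rw [h s t z j k]
      have h1 : a i - a k = (a i - a j) + (a j - a k) := by ring
      have h2 : b i - b k = (b i - b j) + (b j - b k) := by ring
      rw [h1, h2, zpow_add₀ (Circle.coe_ne_zero s), zpow_add₀ (Circle.coe_ne_zero t)]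
      simp only [W, Matrix.of_apply]
      ring
    rw [h2, h1]
    by_cases hik : i = k
    · subst hik; simp
    · simp [hik]
  have := Matrix.inv_eq_left_inv hW
  intro i j
  simp only [this]
  rfl

theorem Eqv.kron {S S' : Type} {α β : S → ℤ} {α' β' : S' → ℤ} {M : Z × Z → Matrix S S' ℂ}
    {N : Z × Z → Matrix ι κ ℂ} (hM : Eqv α β α' β' M) (hN : Eqv a b a' b' N) :
    Eqv (fun p : S × ι => α p.1 + a p.2) (fun p : S × ι => β p.1 + b p.2)
      (fun p : S' × κ => α' p.1 + a' p.2) (fun p : S' × κ => β' p.1 + b' p.2)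
      fun z => M z ⊗ₖ N z := by
  intro s t z i j
  simp only [Matrix.kroneckerMap_apply]
  rw [hM s t z, hN s t z]
  have h1 : α i.1 + a i.2 - (α' j.1 + a' j.2) = (α i.1 - α' j.1) + (a i.2 - a' j.2) := by ring
  have h2 : β i.1 + b i.2 - (β' j.1 + b' j.2) = (β i.1 - β' j.1) + (b i.2 - b' j.2) := by ring
  rw [h1, h2, zpow_add₀ (Circle.coe_ne_zero s), zpow_add₀ (Circle.coe_ne_zero t)]
  ring

theorem Eqv.congr {u v : Z × Z → Matrix ι κ ℂ} (hu : Eqv a b a' b' u) (h : ∀ z, v z = u z) :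
    Eqv a b a' b' v := by
  have : v = u := funext h
  rw [this]; exact hu

/-- change of the weights outside of the support -/
theorem Eqv.weights {c d : ι → ℤ} {c' d' : κ → ℤ} {u : Z × Z → Matrix ι κ ℂ}
    (hu : Eqv a b a' b' u)
    (h : ∀ z i j, u z i j ≠ 0 → a i - a' j = c i - c' j ∧ b i - b' j = d i - d' j) :
    Eqv c d c' d' u := by
  intro s t z i j
  rw [hu s t z i j]
  by_cases h0 : u z i j = 0
  · rw [h0, mul_zero, mul_zero]
  · rw [(h z i j h0).1, (h z i j h0).2]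

theorem Eqv.blocks {u₁₁ : Z × Z → Matrix ι ι ℂ} {u₁₂ : Z × Z → Matrix ι κ ℂ}
    {u₂₁ : Z × Z → Matrix κ ι ℂ} {u₂₂ : Z × Z → Matrix κ κ ℂ}
    (h₁₁ : Eqv a b a b u₁₁) (h₁₂ : Eqv a b a' b' u₁₂) (h₂₁ : Eqv a' b' a b u₂₁)
    (h₂₂ : Eqv a' b' a' b' u₂₂) :
    Eqv (Sum.elim a a') (Sum.elim b b') (Sum.elim a a') (Sum.elim b b')
      fun z => fromBlocks (u₁₁ z) (u₁₂ z) (u₂₁ z) (u₂₂ z) := by
  intro s t z i j
  rcases i with i | i <;> rcases j with j | j
  · simpa using h₁₁ s t z i j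
  · simpa using h₁₂ s t z i j
  · simpa using h₂₁ s t z i j
  · simpa using h₂₂ s t z i j

theorem Eqv.zero : Eqv a b a' b' (fun _ => (0 : Matrix ι κ ℂ)) := by
  intro s t z i j
  simp

theorem continuous_kron {X S S' : Type} [TopologicalSpace X] {M : X → Matrix S S' ℂ}
    {N : X → Matrix ι κ ℂ} (hM : Continuous M) (hN : Continuous N) :
    Continuous fun z => M z ⊗ₖ N z := by
  refine continuous_matrix fun i j => ?_
  simp only [Matrix.kroneckerMap_apply]
  exact (hM.matrix_elem _ _).mul (hN.matrix_elem _ _)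

theorem continuous_inv' [Fintype ι] [DecidableEq ι] {M : Z × Z → Matrix ι ι ℂ} (h : Continuous M)
    (hM : ∀ z, (M z).det ≠ 0) : Continuous fun z => (M z)⁻¹ := by
  simp only [Matrix.inv_def, Ring.inverse_eq_inv']
  exact (h.matrix_det.inv₀ hM).smul h.matrix_adjugate

end

/-- equivariant continuous families of projections -/
structure IsP {ι : Type} [Fintype ι] [DecidableEq ι] (a b : ι → ℤ) (e : Z × Z → Matrix ι ι ℂ) :
    Prop where
  cont : Continuous e
  idem : ∀ z, e z * e z = e z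
  herm : ∀ z, (e z)ᴴ = e z
  eqv : Eqv a b a b e

/-- the bundle -/
def IsP.bun {ι : Type} [Fintype ι] [DecidableEq ι] {a b : ι → ℤ} {e : Z × Z → Matrix ι ι ℂ}
    (h : IsP a b e) : Bun2 where
  ι := ι
  fin := inferInstance
  dec := inferInstance
  a := a
  b := b
  e := e
  cont := h.cont
  idem := h.idem
  herm := h.herm
  equiv := h.eqv

theorem isP_of (B : Bun2) : IsP B.a B.b B.e := ⟨B.cont, B.idem, B.herm, B.equiv⟩

theorem isP_of_bun (B : Bun2) : (isP_of B).bun = B := rfl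

section index

variable {F : Bun2 → ℤ → ℤ → ℤ} {f : Bun → ℤ → ℤ}

theorem ev2 {Q : ℤ → ℤ → Prop} (h : ∃ K : ℤ, ∀ k l, K ≤ k → K ≤ l → Q k l) :
    ∀ᶠ p : ℤ × ℤ in atTop, Q p.1 p.2 := by
  obtain ⟨K, hK⟩ := h
  filter_upwards [eventually_ge_atTop ((K, K) : ℤ × ℤ)] with p hp
  exact hK _ _ hp.1 hp.2

theorem of_ev2 {Q : ℤ → ℤ → Prop} (h : ∀ᶠ p : ℤ × ℤ in atTop, Q p.1 p.2) :
    ∃ K : ℤ, ∀ k l, K ≤ k → K ≤ l → Q k l := by
  obtain ⟨p, hp⟩ := eventually_atTop.1 h
  refine ⟨max p.1 p.2, fun k l hk hl => hp (k, l) ⟨?_, ?_⟩⟩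
  · exact (le_max_left _ _).trans hk
  · exact (le_max_right _ _).trans hl

theorem ev_shift {Q : ℤ × ℤ → Prop} (h : ∀ᶠ p : ℤ × ℤ in atTop, Q p) (m n : ℤ) :
    ∀ᶠ p : ℤ × ℤ in atTop, Q (p.1 + m, p.2 + n) := by
  obtain ⟨K, hK⟩ := of_ev2 (Q := fun k l => Q (k, l)) h
  refine ev2 (Q := fun k l => Q (k + m, l + n)) ⟨K + |m| + |n|, fun k l hk hl => hK _ _ ?_ ?_⟩
  · have := neg_abs_le m
    have := abs_nonneg n
    linarith
  · have := neg_abs_le n
    have := abs_nonneg m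
    linarith

theorem F_iso' (D : IndexData F f) {A B : Bun2} (h : A.Iso B) :
    ∀ᶠ p : ℤ × ℤ in atTop, F A p.1 p.2 = F B p.1 p.2 := ev2 (D.iso2 A B h)

theorem F_iso (D : IndexData F f) {ι κ : Type} [Fintype ι] [DecidableEq ι] [Fintype κ]
    [DecidableEq κ] {a b : ι → ℤ} {a' b' : κ → ℤ} {e : Z × Z → Matrix ι ι ℂ}
    {e' : Z × Z → Matrix κ κ ℂ} (hA : IsP a b e) (hB : IsP a' b' e')
    (u : Z × Z → Matrix κ ι ℂ) (hc : Continuous u) (hu : Eqv a' b' a b u)
    (h1 : ∀ z, (u z)ᴴ * u z = e z) (h2 : ∀ z, u z * (u z)ᴴ = e' z) :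
    ∀ᶠ p : ℤ × ℤ in atTop, F hA.bun p.1 p.2 = F hB.bun p.1 p.2 :=
  F_iso' D ⟨u, fun z => (u z)ᴴ, hc, hc.matrix_conjTranspose, h1, h2, hu, hu.ct⟩

variable {ι : Type} [Fintype ι] [DecidableEq ι] {a b : ι → ℤ}

theorem F_add (D : IndexData F f) {e e1 e2 : Z × Z → Matrix ι ι ℂ} (hA : IsP a b e)
    (h1 : IsP a b e1) (h2 : IsP a b e2) (he : ∀ z, e z = e1 z + e2 z)
    (h12 : ∀ z, e1 z * e2 z = 0) :
    ∀ᶠ p : ℤ × ℤ in atTop, F hA.bun p.1 p.2 = F h1.bun p.1 p.2 + F h2.bun p.1 p.2 := by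
  have h21 : ∀ z, e2 z * e1 z = 0 := by
    intro z
    have := congrArg conjTranspose (h12 z)
    rwa [conjTranspose_mul, conjTranspose_zero, h1.herm, h2.herm] at this
  have hS : IsP (Sum.elim a a) (Sum.elim b b) fun z => fromBlocks (e1 z) 0 0 (e2 z) := by
    refine ⟨h1.cont.matrix_fromBlocks continuous_const continuous_const h2.cont, fun z => ?_,
      fun z => ?_, ?_⟩
    · rw [fromBlocks_multiply]; simp [h1.idem, h2.idem]
    · rw [fromBlocks_conjTranspose]; simp [h1.herm, h2.herm]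
    · exact Eqv.blocks h1.eqv Eqv.zero Eqv.zero h2.eqv
  have hI := F_iso D hA hS (fun z => Matrix.fromRows (e1 z) (e2 z)) ?_ ?_ ?_ ?_
  · have hs := ev2 (D.sum2 hS.bun h1.bun h2.bun ⟨Equiv.refl _, fun i => rfl, fun i => rfl,
      fun z => by
        ext i j
        rfl⟩)
    filter_upwards [hI, hs] with p hp1 hp2
    rw [hp1, hp2]
  · refine continuous_matrix fun i j => ?_
    rcases i with i | i
    · exact h1.cont.matrix_elem i j
    · exact h2.cont.matrix_elem i j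
  · intro s t z i j
    rcases i with i | i
    · exact h1.eqv s t z i j
    · exact h2.eqv s t z i j
  · intro z
    rw [conjTranspose_fromRows_eq_fromCols_conjTranspose, fromCols_mul_fromRows, h1.herm, h2.herm,
      h1.idem, h2.idem, he]
  · intro z
    rw [conjTranspose_fromRows_eq_fromCols_conjTranspose, fromRows_mul_fromCols, h1.herm, h2.herm,
      h1.idem, h2.idem, h12, h21]

theorem F_zero (D : IndexData F f) {e : Z × Z → Matrix ι ι ℂ} (hA : IsP a b e)
    (he : ∀ z, e z = 0) : ∀ᶠ p : ℤ × ℤ in atTop, F hA.bun p.1 p.2 = 0 := by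
  have := F_add D hA hA hA (fun z => by simp [he]) (fun z => by simp [he])
  filter_upwards [this] with p hp
  linarith

theorem F_congr {e e' : Z × Z → Matrix ι ι ℂ} (hA : IsP a b e) (hB : IsP a b e')
    (he : ∀ z, e z = e' z) : F hA.bun = F hB.bun := by
  obtain rfl : e = e' := funext he
  rfl

/-- a sum of pairwise orthogonal projections -/
theorem isP_sum {τ : Type} (T : Finset τ) (e : τ → Z × Z → Matrix ι ι ℂ) (h : ∀ i, IsP a b (e i))
    (ho : ∀ i ∈ T, ∀ j ∈ T, i ≠ j → ∀ z, e i z * e j z = 0) :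
    IsP a b fun z => ∑ i ∈ T, e i z := by
  refine ⟨continuous_finsetSum _ fun i _ => (h i).cont, fun z => ?_, fun z => ?_, ?_⟩
  · rw [Finset.sum_mul]
    refine Finset.sum_congr rfl fun i hi => ?_
    rw [Finset.mul_sum, Finset.sum_eq_single i]
    · exact (h i).idem z
    · intro j hj hji
      exact ho i hi j hj (Ne.symm hji) z
    · intro h; exact absurd hi h
  · rw [conjTranspose_sum]
    exact Finset.sum_congr rfl fun i _ => (h i).herm z
  · intro s t z i j
    simp only [Matrix.sum_apply, Finset.mul_sum]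
    exact Finset.sum_congr rfl fun k _ => (h k).eqv s t z i j

theorem F_sum (D : IndexData F f) {τ : Type} (T : Finset τ)
    (e : τ → Z × Z → Matrix ι ι ℂ) (h : ∀ i, IsP a b (e i)) {E : Z × Z → Matrix ι ι ℂ}
    (hE : IsP a b E) (hs : ∀ z, E z = ∑ i ∈ T, e i z)
    (ho : ∀ i ∈ T, ∀ j ∈ T, i ≠ j → ∀ z, e i z * e j z = 0) :
    ∀ᶠ p : ℤ × ℤ in atTop, F hE.bun p.1 p.2 = ∑ i ∈ T, F (h i).bun p.1 p.2 := by
  classical
  induction T using Finset.induction_on generalizing E with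
  | empty =>
    simp only [Finset.sum_empty]
    exact F_zero D hE (fun z => by rw [hs]; simp)
  | insert j T hj ih =>
    have ho' : ∀ i ∈ T, ∀ j ∈ T, i ≠ j → ∀ z, e i z * e j z = 0 := fun i hi j hj =>
      ho i (Finset.mem_insert_of_mem hi) j (Finset.mem_insert_of_mem hj)
    have hT := isP_sum T e h ho'
    have h1 := ih hT (fun z => rfl) ho'
    have h2 := F_add D hE (h j) hT (fun z => by rw [hs, Finset.sum_insert hj]) (fun z => by
      rw [Finset.mul_sum]
      refine Finset.sum_eq_zero fun i hi => ?_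
      refine ho j (Finset.mem_insert_self _ _) i (Finset.mem_insert_of_mem hi) ?_ z
      rintro rfl
      exact hj hi)
    filter_upwards [h1, h2] with p h1 h2
    rw [h2, h1, Finset.sum_insert hj]

theorem F_shift (D : IndexData F f) {e : Z × Z → Matrix ι ι ℂ} (m n : ℤ) (hA : IsP a b e)
    (hB : IsP (fun i => a i + m) (fun i => b i + n) e) :
    ∀ᶠ p : ℤ × ℤ in atTop, F hB.bun p.1 p.2 = F hA.bun (p.1 + m) (p.2 + n) :=
  ev2 (D.shift2 hB.bun hA.bun m n ⟨Equiv.refl _, fun _ => rfl, fun _ => rfl, fun _ => rfl⟩)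

end index

end Pool.Agent.TH828.SD
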