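import Pool.Agent.TH828.SD.Eqv

/-!
# Odd invertible operators give isomorphisms (helper828, for project SD of helper179)
-/

open scoped Topology Kronecker ComplexOrder
open Filter Matrix

noncomputable section

namespace Pool.Agent.TH828.SD
open Pool.Agent.TH179.SD

theorem ring_odd {R : Type*} [Ring R] {e d M N e0 e1 : R}
    (hde : d * e = e * d) (h10 : e1 * d = d * e0) (h01 : e0 * d = d * e1)
    (h00 : e0 * e0 = e0) (h11 : e1 * e1 = e1) (he0 : e * e0 = e0) (he1 : e * e1 = e1)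
    (he1' : e1 * e = e1) (hee : e * e = e) (hM : M = d * d * e + (1 - e)) (hMN : M * N = 1)
    (hNM : N * M = 1) :
    (d * N * e1) * (d * e0) = e0 ∧ (d * e0) * (d * N * e1) = e1 := by
  have hMd : M * d = d * M := by
    rw [hM, add_mul, mul_add, sub_mul, mul_sub, one_mul, mul_one, mul_assoc (d * d) e d, ← hde,
      mul_assoc d d (d * e), ← mul_assoc d d e]
  have hMe1 : M * e1 = e1 * M := by
    have h1 : M * e1 = d * d * e1 := by
      rw [hM, add_mul, sub_mul, one_mul, mul_assoc (d * d), he1, sub_self, add_zero]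
    have h2 : e1 * M = d * d * e1 := by
      rw [hM, mul_add, mul_sub, mul_one, he1', sub_self, add_zero, ← mul_assoc, ← mul_assoc, h10,
        mul_assoc d e0 d, h01, ← mul_assoc, mul_assoc (d * d), he1']
    rw [h1, h2]
  have hNd : N * d = d * N := by
    calc N * d = N * d * (M * N) := by rw [hMN, mul_one]
      _ = N * (d * M) * N := by simp only [mul_assoc]
      _ = N * (M * d) * N := by rw [hMd]
      _ = (N * M) * d * N := by simp only [mul_assoc]
      _ = d * N := by rw [hNM, one_mul]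
  have hNe1 : N * e1 = e1 * N := by
    calc N * e1 = N * e1 * (M * N) := by rw [hMN, mul_one]
      _ = N * (e1 * M) * N := by simp only [mul_assoc]
      _ = N * (M * e1) * N := by rw [hMe1]
      _ = (N * M) * e1 * N := by simp only [mul_assoc]
      _ = e1 * N := by rw [hNM, one_mul]
  have hMe : d * d * e = M * e := by
    rw [hM, add_mul, sub_mul, one_mul, mul_assoc (d * d), hee, sub_self, add_zero]
  constructor
  · calc (d * N * e1) * (d * e0) = d * N * (e1 * d) * e0 := by simp only [mul_assoc]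
      _ = (d * N) * d * (e0 * e0) := by rw [h10]; simp only [mul_assoc]
      _ = (N * d) * d * (e * e0) := by rw [h00, hNd, he0]
      _ = N * (d * d * e) * e0 := by simp only [mul_assoc]
      _ = (N * M) * (e * e0) := by rw [hMe]; simp only [mul_assoc]
      _ = e0 := by rw [hNM, one_mul, he0]
  · calc (d * e0) * (d * N * e1) = d * (e0 * d) * (N * e1) := by simp only [mul_assoc]
      _ = d * (d * e1) * (e1 * N) := by rw [h01, hNe1]
      _ = d * d * (e1 * e1) * N := by simp only [mul_assoc]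
      _ = d * d * (e1 * N) := by rw [h11]; simp only [mul_assoc]
      _ = d * (d * N) * e1 := by rw [← hNe1]; simp only [mul_assoc]
      _ = d * (N * d) * e1 := by rw [hNd]
      _ = (d * N) * d * e1 := by simp only [mul_assoc]
      _ = (N * d) * d * (e * e1) := by rw [hNd, he1]
      _ = N * (d * d * e) * e1 := by simp only [mul_assoc]
      _ = (N * M) * (e * e1) := by rw [hMe]; simp only [mul_assoc]
      _ = e1 := by rw [hNM, one_mul, he1]

theorem det_aux {ι : Type} [Fintype ι] [DecidableEq ι] {e Ψ : Matrix ι ι ℂ} (hee : e * e = e)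
    (hΨ : Ψᴴ = Ψ) (hc : Ψ * e = e * Ψ) {r : ℝ} (hr : 0 < r) :
    (((r : ℂ) • (1 : Matrix ι ι ℂ) + Ψ * Ψ) * e + (1 - e)).det ≠ 0 := by
  set K : Matrix ι ι ℂ := (r : ℂ) • (1 : Matrix ι ι ℂ) + Ψ * Ψ with hK
  have hpd : K.PosDef := by
    have h1 : ((r : ℂ) • (1 : Matrix ι ι ℂ)).PosDef :=
      Matrix.PosDef.one.smul (by exact_mod_cast hr)
    have h2 : (Ψ * Ψ).PosSemidef := by
      have := Matrix.posSemidef_conjTranspose_mul_self Ψ
      rwa [hΨ] at this
    exact h1.add_posSemidef h2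
  have hKu : IsUnit K.det := (Matrix.isUnit_iff_isUnit_det K).1 hpd.isUnit
  have hKe : K * e = e * K := by
    rw [hK, add_mul, mul_add, smul_mul_assoc, mul_smul_comm, one_mul, mul_one, mul_assoc, hc,
      ← mul_assoc, hc, mul_assoc]
  have h1 : K * K⁻¹ = 1 := Matrix.mul_nonsing_inv _ hKu
  have h2 : K⁻¹ * K = 1 := Matrix.nonsing_inv_mul _ hKu
  have hKi : K⁻¹ * e = e * K⁻¹ := by
    calc K⁻¹ * e = K⁻¹ * e * (K * K⁻¹) := by rw [h1, mul_one]
      _ = K⁻¹ * (e * K) * K⁻¹ := by simp only [mul_assoc]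
      _ = K⁻¹ * (K * e) * K⁻¹ := by rw [hKe]
      _ = (K⁻¹ * K) * e * K⁻¹ := by simp only [mul_assoc]
      _ = e * K⁻¹ := by rw [h2, one_mul]
  have hprod : (K * e + (1 - e)) * (K⁻¹ * e + (1 - e)) = 1 := by
    have e1 : K * e * (K⁻¹ * e) = e := by
      calc K * e * (K⁻¹ * e) = K * (e * K⁻¹) * e := by simp only [mul_assoc]
        _ = K * (K⁻¹ * e) * e := by rw [hKi]
        _ = (K * K⁻¹) * (e * e) := by simp only [mul_assoc]
        _ = e := by rw [h1, one_mul, hee]
    have e2 : K * e * (1 - e) = 0 := by rw [mul_sub, mul_one, mul_assoc, hee, sub_self]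
    have e3 : (1 - e) * (K⁻¹ * e) = 0 := by
      rw [sub_mul, one_mul, ← mul_assoc, ← hKi, mul_assoc, hee, sub_self]
    have e4 : (1 - e) * (1 - e) = 1 - e := by
      rw [sub_mul, one_mul, mul_sub, mul_one, hee, sub_self, sub_zero]
    rw [add_mul, mul_add, mul_add, e1, e2, e3, e4]
    abel
  intro h0
  have := congrArg Matrix.det hprod
  rw [Matrix.det_mul, h0, zero_mul, Matrix.det_one] at this
  exact one_ne_zero this.symm

section

variable {F : Bun2 → ℤ → ℤ → ℤ} {f : Bun → ℤ → ℤ}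
variable {ι : Type} [Fintype ι] [DecidableEq ι] {a b : ι → ℤ}

theorem odd_iso (D : IndexData F f) {e d : Z × Z → Matrix ι ι ℂ} {γ : Matrix ι ι ℂ}
    (he : IsP a b e) (hdc : Continuous d) (hd : Eqv a b a b d)
    (hde : ∀ z, d z * e z = e z * d z)
    (hγe : ∀ z, γ * e z = e z * γ) (hγd : ∀ z, γ * d z = -(d z * γ))
    (hM : ∀ z, (d z * d z * e z + (1 - e z)).det ≠ 0)
    {e0 e1 : Z × Z → Matrix ι ι ℂ} (h0 : IsP a b e0) (h1 : IsP a b e1)
    (he0 : ∀ z, e0 z = (1 / 2 : ℂ) • ((1 + γ) * e z))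
    (he1 : ∀ z, e1 z = (1 / 2 : ℂ) • ((1 - γ) * e z)) :
    ∀ᶠ p : ℤ × ℤ in atTop, F h0.bun p.1 p.2 = F h1.bun p.1 p.2 := by
  set M : Z × Z → Matrix ι ι ℂ := fun z => d z * d z * e z + (1 - e z) with hMdef
  have hMc : Continuous M :=
    ((hdc.matrix_mul hdc).matrix_mul he.cont).add (continuous_const.sub he.cont)
  have hMe : Eqv a b a b M := ((hd.mul hd).mul he.eqv).add (Eqv.one.sub he.eqv)
  have hNc : Continuous fun z => (M z)⁻¹ := continuous_inv' hMc hM
  have hNe : Eqv a b a b fun z => (M z)⁻¹ := hMe.inv hM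
  have hkey : ∀ z, (d z * (M z)⁻¹ * e1 z) * (d z * e0 z) = e0 z ∧
      (d z * e0 z) * (d z * (M z)⁻¹ * e1 z) = e1 z := by
    intro z
    have hu : IsUnit (M z).det := isUnit_iff_ne_zero.2 (hM z)
    refine ring_odd (e := e z) (M := M z) (hde z) ?_ ?_ (h0.idem z) (h1.idem z) ?_ ?_ ?_ (he.idem z)
      rfl (Matrix.mul_nonsing_inv _ hu) (Matrix.nonsing_inv_mul _ hu)
    · rw [he1, he0, smul_mul_assoc, mul_smul_comm, mul_assoc, ← hde, ← mul_assoc, ← mul_assoc,
        sub_mul, mul_add, hγd, one_mul, mul_one, sub_neg_eq_add]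
    · rw [he1, he0, smul_mul_assoc, mul_smul_comm, mul_assoc, ← hde, ← mul_assoc, ← mul_assoc,
        add_mul, mul_sub, hγd, one_mul, mul_one, ← sub_eq_add_neg]
    · rw [he0, mul_smul_comm, ← mul_assoc, mul_add, mul_one, ← hγe, add_mul, add_mul,
        one_mul, mul_assoc, he.idem]
    · rw [he1, mul_smul_comm, ← mul_assoc, mul_sub, mul_one, ← hγe, sub_mul, sub_mul,
        one_mul, mul_assoc, he.idem]
    · rw [he1, smul_mul_assoc, mul_assoc, he.idem]
  exact F_iso' D ⟨fun z => d z * e0 z, fun z => d z * (M z)⁻¹ * e1 z, hdc.matrix_mul h0.cont,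
    (hdc.matrix_mul hNc).matrix_mul h1.cont, fun z => (hkey z).1, fun z => (hkey z).2,
    hd.mul h0.eqv, (hd.mul hNe).mul h1.eqv⟩

end

end Pool.Agent.TH828.SD
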