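import Pool.Agent.TH828.SD.Diag

/-!
# The isomorphism near the diagonal (helper828, for project SD of helper179)
-/

open scoped Topology Kronecker ComplexOrder
open Filter Matrix

noncomputable section

namespace Pool.Agent.TH828.SD
open Pool.Agent.TH179.SD

/-- `w ↦ wⁿ`, continuous also for negative `n` -/
def pw (w : ℂ) (n : ℤ) : ℂ := if 0 ≤ n then w ^ n.toNat else ((starRingEnd ℂ) w) ^ (-n).toNat

theorem continuous_pw {X : Type*} [TopologicalSpace X] {w : X → ℂ} (hw : Continuous w) (n : ℤ) :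
    Continuous fun z => pw (w z) n := by
  unfold pw
  split_ifs
  · exact hw.pow _
  · exact (Complex.continuous_conj.comp hw).pow _

theorem pw_unit (u : Circle) (w : ℂ) (n : ℤ) : pw ((u : ℂ) * w) n = (u : ℂ) ^ n * pw w n := by
  unfold pw
  split_ifs with h
  · rw [mul_pow]
    congr 1
    rw [← zpow_natCast, Int.toNat_of_nonneg h]
  · rw [map_mul, mul_pow]
    congr 1
    rw [conj_unit, ← zpow_natCast, Int.toNat_of_nonneg (by omega), _root_.inv_zpow,
      ← _root_.zpow_neg, neg_neg]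

theorem pw_coe (u : Circle) (n : ℤ) : pw (u : ℂ) n = (u : ℂ) ^ n := by
  have h := pw_unit u 1 n
  rw [mul_one] at h
  rw [h]
  unfold pw
  split_ifs <;> simp

/-- the pullback under the first projection -/
def pX (A : Bun) : Bun2 where
  ι := A.ι
  fin := A.fin
  dec := A.dec
  a := A.a
  b := fun _ => 0
  e z := A.e z.1
  cont := A.cont.comp continuous_fst
  idem z := A.idem _
  herm z := A.herm _
  equiv s t z i j := by
    rw [A.equiv]; simp

/-- the pullback under the second projection -/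
def pY (A : Bun) : Bun2 where
  ι := A.ι
  fin := A.fin
  dec := A.dec
  a := fun _ => 0
  b := A.a
  e z := A.e z.2
  cont := A.cont.comp continuous_snd
  idem z := A.idem _
  herm z := A.herm _
  equiv s t z i j := by
    rw [A.equiv]; simp

/-- the comparison map -/
def phi (A : Bun) (z : Z × Z) : Matrix A.ι A.ι ℂ :=
  A.e (cj z.2) * diagonal (fun i => pw (CAR.ip (xx z) (yy z)) (A.a i)) * A.e z.1

theorem phi_cont (A : Bun) : Continuous (phi A) := by
  unfold phi
  refine ((A.flat.cont.comp continuous_snd).matrix_mul ?_).matrix_mul (A.cont.comp continuous_fst)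
  refine Continuous.matrix_diagonal ?_
  exact continuous_pi fun i => continuous_pw (continuous_ip continuous_xx continuous_yy) _

theorem ip_rot (s t : Circle) (z : Z × Z) :
    CAR.ip (xx (rot s z.1, rot t z.2)) (yy (rot s z.1, rot t z.2)) =
      ((s⁻¹ * t⁻¹ : Circle) : ℂ) * CAR.ip (xx z) (yy z) := by
  rw [xx_rot, yy_rot, ip_smul_left, ip_smul_right]
  simp only [zpow_one, zpow_zero, mul_one, one_mul, _root_.zpow_neg_one, conj_unit,
    Circle.coe_mul, Circle.coe_inv]
  ring

theorem phi_eqv0 (A : Bun) :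
    Eqv (fun _ : A.ι => (0 : ℤ)) (fun i => -A.a i) A.a (fun _ => 0) (phi A) := by
  have h1 : Eqv (fun _ : A.ι => (0 : ℤ)) (fun i => -A.a i) (fun _ : A.ι => (0 : ℤ))
      (fun i => -A.a i) (fun z => A.e (cj z.2)) := (pY A.flat).equiv
  have h2 : Eqv (fun _ : A.ι => (0 : ℤ)) (fun i => -A.a i) A.a (fun _ => 0)
      (fun z => diagonal (fun i => pw (CAR.ip (xx z) (yy z)) (A.a i))) := by
    intro s t z i j
    by_cases h : i = j
    · subst h
      simp only [diagonal_apply_eq]
      rw [ip_rot, pw_unit]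
      simp only [Circle.coe_mul, Circle.coe_inv, mul_zpow, zero_sub, sub_zero,
        _root_.inv_zpow, _root_.zpow_neg]
    · simp only [diagonal_apply_ne _ h, mul_zero]
  have h3 : Eqv A.a (fun _ => 0) A.a (fun _ => 0) (fun z : Z × Z => A.e z.1) := (pX A).equiv
  exact (h1.mul h2).mul h3

theorem phi_eqv (A : Bun) :
    Eqv (pY A.flat).a (pY A.flat).b (pX A).a (pX A).b (phi A) := phi_eqv0 A

theorem phi_left (A : Bun) (z : Z × Z) : A.e (cj z.2) * phi A z = phi A z := by
  unfold phi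
  rw [← mul_assoc, ← mul_assoc, A.idem]

theorem phi_right (A : Bun) (z : Z × Z) : phi A z * A.e z.1 = phi A z := by
  unfold phi
  rw [mul_assoc, A.idem]

theorem ip_conj (u v : Fin 5 → ℂ) : (starRingEnd ℂ) (CAR.ip u v) = CAR.ip v u := by
  unfold CAR.ip
  rw [map_sum]
  refine Finset.sum_congr rfl fun i _ => ?_
  rw [map_mul, Complex.conj_conj, mul_comm]

theorem phi_diag (A : Bun) (z : Z × Z) (hz : sg z = 0) :
    (phi A z)ᴴ * phi A z = A.e z.1 ∧ phi A z * (phi A z)ᴴ = A.e (cj z.2) := by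
  set c := CAR.ip (yy z) (xx z) with hc
  have hx : xx z = c • yy z := by
    have := hz
    unfold sg at this
    exact sub_eq_zero.1 this
  have hcc : (starRingEnd ℂ) c * c = 1 := by
    have h1 := ip_xx z
    rw [hx, ip_smul_left, ip_smul_right, ip_yy, mul_one] at h1
    exact h1
  have hxy : CAR.ip (xx z) (yy z) = (starRingEnd ℂ) c := by rw [hc, ip_conj]
  have hnorm : ‖(starRingEnd ℂ) c‖ = 1 := by
    rw [RCLike.norm_conj]
    have h1 := congrArg norm hcc
    rw [norm_mul, RCLike.norm_conj, norm_one] at h1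
    have h2 := norm_nonneg c
    nlinarith
  obtain ⟨τ, hτ⟩ : ∃ τ : Circle, (τ : ℂ) = (starRingEnd ℂ) c :=
    ⟨⟨(starRingEnd ℂ) c, mem_sphere_zero_iff_norm.2 hnorm⟩, rfl⟩
  have hrot : cj z.2 = rot τ z.1 := by
    apply Subtype.ext
    funext i
    change yy z i = (τ : ℂ) * xx z i
    rw [hx, hτ, Pi.smul_apply, smul_eq_mul, ← mul_assoc, hcc, one_mul]
  set Dt : Matrix A.ι A.ι ℂ := diagonal fun i => (τ : ℂ) ^ A.a i with hDt
  have hDD : Dtᴴ * Dt = 1 := by
    rw [hDt, diagonal_conjTranspose, diagonal_mul_diagonal, ← diagonal_one]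
    congr 1
    funext i
    rw [Pi.star_apply, ← starRingEnd_apply, map_zpow₀, conj_unit, _root_.inv_zpow]
    exact inv_mul_cancel₀ (zpow_ne_zero _ (Circle.coe_ne_zero τ))
  have hE : A.e (cj z.2) = Dt * A.e z.1 * Dtᴴ := by
    ext i j
    rw [hrot, A.equiv, hDt, diagonal_conjTranspose, mul_diagonal, diagonal_mul, Pi.star_apply,
      ← starRingEnd_apply, map_zpow₀, conj_unit, _root_.inv_zpow,
      zpow_sub₀ (Circle.coe_ne_zero τ)]
    ring
  have hd : (diagonal fun i => pw (CAR.ip (xx z) (yy z)) (A.a i)) = Dt := by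
    rw [hDt, hxy, ← hτ]
    congr 1
    funext i
    exact pw_coe τ _
  have hphi : phi A z = Dt * A.e z.1 := by
    unfold phi
    rw [hd, hE, mul_assoc (Dt * A.e z.1), hDD, mul_one, mul_assoc, A.idem]
  constructor
  · rw [hphi, conjTranspose_mul, A.herm, mul_assoc, ← mul_assoc Dtᴴ, hDD, one_mul, A.idem]
  · rw [hphi, conjTranspose_mul, A.herm, mul_assoc, ← mul_assoc (A.e z.1), A.idem, ← mul_assoc, hE]

variable {F : Bun2 → ℤ → ℤ → ℤ} {f : Bun → ℤ → ℤ}

/-- Step 2 -/
theorem diag_rel' (D : IndexData F f) (A : Bun) :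
    ∀ᶠ p : ℤ × ℤ in atTop,
      ∑ j ∈ Finset.range 6, F (isT (if decide (j % 2 = 0) then pX A else pY A.flat) j 0 0).bun
        (p.1 + j) p.2 =
      ∑ j ∈ Finset.range 6, F (isT (if !decide (j % 2 = 0) then pX A else pY A.flat) j 0 0).bun
        (p.1 + j) p.2 := by
  exact diag_rel (pX A) (pY A.flat) D (phi A) (phi_cont A) (phi_eqv A) (phi_left A) (phi_right A)
    fun z hz => phi_diag A z hz

theorem F_pX (D : IndexData F f) (A : Bun) :
    ∀ᶠ p : ℤ × ℤ in atTop, (F (pX A) p.1 p.2 : ℚ) = f A p.1 * Bq p.2 :=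
  ev2 (Q := fun k l => (F (pX A) k l : ℚ) = f A k * Bq l)
    (D.x (pX A) A ⟨Equiv.refl _, fun _ => rfl, fun _ => rfl, fun _ => rfl⟩)

theorem F_pY (D : IndexData F f) (A : Bun) :
    ∀ᶠ p : ℤ × ℤ in atTop, (F (pY A) p.1 p.2 : ℚ) = Bq p.1 * f A p.2 :=
  ev2 (Q := fun k l => (F (pY A) k l : ℚ) = Bq k * f A l)
    (D.y (pY A) A ⟨Equiv.refl _, fun _ => rfl, fun _ => rfl, fun _ => rfl⟩)

end Pool.Agent.TH828.SD
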