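import Pool.Agent.TH828.SD.Odd

/-!
# Steps 1 and 3 (helper828, for project SD of helper179)
-/

open scoped Topology Kronecker ComplexOrder
open Filter Matrix

noncomputable section

namespace Pool.Agent.TH828.SD
open Pool.Agent.TH179.SD

/-! ### the vectors `x`, `y`, `σ` -/

/-- `y = conj y'` -/
def yy (z : Z × Z) : Fin 5 → ℂ := (cj z.2).1

/-- `x` -/
def xx (z : Z × Z) : Fin 5 → ℂ := z.1.1

/-- `x - ⟨y, x⟩ y` -/
def sg (z : Z × Z) : Fin 5 → ℂ := xx z - CAR.ip (yy z) (xx z) • yy z

theorem ip_self (v : Fin 5 → ℂ) : CAR.ip v v = ((∑ i, ‖v i‖ ^ 2 : ℝ) : ℂ) := by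
  unfold CAR.ip
  push_cast
  refine Finset.sum_congr rfl fun i _ => ?_
  rw [mul_comm, Complex.mul_conj, Complex.normSq_eq_norm_sq]
  push_cast
  ring

theorem ip_xx (z : Z × Z) : CAR.ip (xx z) (xx z) = 1 := by
  rw [ip_self, xx, z.1.2]; simp

theorem ip_yy (z : Z × Z) : CAR.ip (yy z) (yy z) = 1 := by
  rw [ip_self, yy, (cj z.2).2]; simp

theorem ip_sub_right (u v w : Fin 5 → ℂ) : CAR.ip u (v - w) = CAR.ip u v - CAR.ip u w := by
  unfold CAR.ip
  rw [← Finset.sum_sub_distrib]
  exact Finset.sum_congr rfl fun i _ => by rw [Pi.sub_apply]; ring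

theorem ip_smul_right (u v : Fin 5 → ℂ) (c : ℂ) : CAR.ip u (c • v) = c * CAR.ip u v := by
  unfold CAR.ip
  rw [Finset.mul_sum]
  exact Finset.sum_congr rfl fun i _ => by rw [Pi.smul_apply, smul_eq_mul]; ring

theorem ip_smul_left (u v : Fin 5 → ℂ) (c : ℂ) :
    CAR.ip (c • u) v = (starRingEnd ℂ) c * CAR.ip u v := by
  unfold CAR.ip
  rw [Finset.mul_sum]
  exact Finset.sum_congr rfl fun i _ => by rw [Pi.smul_apply, smul_eq_mul, map_mul]; ring

theorem ip_yy_sg (z : Z × Z) : CAR.ip (yy z) (sg z) = 0 := by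
  unfold sg
  rw [ip_sub_right, ip_smul_right, ip_yy]; ring

theorem continuous_yy : Continuous yy := by
  unfold yy cj
  refine continuous_pi fun i => ?_
  exact Complex.continuous_conj.comp ((continuous_apply i).comp
    (continuous_subtype_val.comp continuous_snd))

theorem continuous_xx : Continuous xx := continuous_subtype_val.comp continuous_fst

theorem continuous_ip {X : Type*} [TopologicalSpace X] {u v : X → Fin 5 → ℂ} (hu : Continuous u)
    (hv : Continuous v) : Continuous fun z => CAR.ip (u z) (v z) := by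
  unfold CAR.ip
  refine continuous_finsetSum _ fun i _ => ?_
  exact (Complex.continuous_conj.comp ((continuous_apply i).comp hu)).mul
    ((continuous_apply i).comp hv)

theorem continuous_sg : Continuous sg :=
  continuous_xx.sub ((continuous_ip continuous_yy continuous_xx).smul continuous_yy)

theorem xx_rot (s t : Circle) (z : Z × Z) :
    xx (rot s z.1, rot t z.2) = ((s : ℂ) ^ (1 : ℤ) * (t : ℂ) ^ (0 : ℤ)) • xx z := by
  funext i
  simp [xx, rot]

theorem yy_rot (s t : Circle) (z : Z × Z) :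
    yy (rot s z.1, rot t z.2) = ((s : ℂ) ^ (0 : ℤ) * (t : ℂ) ^ (-1 : ℤ)) • yy z := by
  funext i
  simp only [yy, rot, cj, Pi.smul_apply, smul_eq_mul, map_mul, ← Circle.coe_inv_eq_conj,
    Circle.coe_inv, zpow_zero, one_mul, _root_.zpow_neg_one]

theorem conj_unit (t : Circle) : (starRingEnd ℂ) (t : ℂ) = (t : ℂ)⁻¹ := by
  rw [← Circle.coe_inv_eq_conj, Circle.coe_inv]

theorem sg_rot (s t : Circle) (z : Z × Z) :
    sg (rot s z.1, rot t z.2) = ((s : ℂ) ^ (1 : ℤ) * (t : ℂ) ^ (0 : ℤ)) • sg z := by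
  unfold sg
  rw [xx_rot, yy_rot, ip_smul_left, ip_smul_right, smul_smul, smul_sub, smul_smul]
  congr 2
  simp only [zpow_one, zpow_zero, mul_one, one_mul, _root_.zpow_neg_one, map_inv₀, conj_unit, inv_inv]
  have := Circle.coe_ne_zero t
  field_simp

/-! ### equivariance of the operators -/

section

variable (C : CAR 5)

theorem continuous_cre {X : Type*} [TopologicalSpace X] {y : X → Fin 5 → ℂ} (hy : Continuous y) :
    Continuous fun z => C.cre (y z) := by
  unfold CAR.cre
  refine continuous_finsetSum _ fun i _ => ?_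
  exact ((continuous_apply i).comp hy).smul continuous_const

theorem cre_smul (c : ℂ) (v : Fin 5 → ℂ) : C.cre (c • v) = c • C.cre v := by
  unfold CAR.cre
  rw [Finset.smul_sum]
  exact Finset.sum_congr rfl fun i _ => by rw [Pi.smul_apply, smul_eq_mul, smul_smul]

theorem eqv_cre {y : Z × Z → Fin 5 → ℂ} {m n : ℤ}
    (hy : ∀ (s t : Circle) z, y (rot s z.1, rot t z.2) = ((s : ℂ) ^ m * (t : ℂ) ^ n) • y z)
    {α β α' β' : C.S → ℤ}
    (h : ∀ I J, C.deg I = C.deg J + 1 → α' I - α J = m ∧ β' I - β J = n) :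
    Eqv α' β' α β fun z => C.cre (y z) := by
  intro s t z I J
  simp only [hy, cre_smul]
  rw [Matrix.smul_apply, smul_eq_mul]
  by_cases h1 : C.deg I = C.deg J + 1
  · rw [(h I J h1).1, (h I J h1).2]
  · rw [C.cre_apply _ I J h1, mul_zero, mul_zero]

theorem q_apply (y : Fin 5 → ℂ) {I J : C.S} (h : C.deg I ≠ C.deg J) : C.q y I J = 0 := by
  have h1 := congrFun (congrFun (C.q_P (C.deg I) y) I) J
  unfold CAR.P at h1
  rw [mul_diagonal, diagonal_mul, if_pos rfl, if_neg (Ne.symm h), mul_zero, one_mul] at h1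
  exact h1.symm

theorem continuous_q : Continuous fun z => C.q (yy z) := by
  unfold CAR.q
  exact (continuous_cre C continuous_yy).matrix_conjTranspose.matrix_mul
    (continuous_cre C continuous_yy)

/-- `q` is invariant, for all weights depending on the degree only -/
theorem eqv_q (α β : ℕ → ℤ) : Eqv (fun I => α (C.deg I)) (fun I => β (C.deg I))
    (fun I => α (C.deg I)) (fun I => β (C.deg I)) fun z => C.q (yy z) := by
  have h1 : Eqv (fun I => (C.deg I : ℤ) - 1) (fun _ => -1) (fun I => (C.deg I : ℤ)) (fun _ => 0)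
      (fun z => C.cre (yy z)) := by
    refine eqv_cre C (m := 0) (n := -1) yy_rot fun I J h => ⟨?_, by ring⟩
    rw [h]; push_cast; ring
  have h2 := h1.ct.mul h1
  refine Eqv.weights (u := fun z => C.q (yy z)) (h2.congr fun z => rfl) ?_
  intro z I J hne
  by_cases hd : C.deg I = C.deg J
  · simp [hd]
  · exact absurd (q_apply C _ hd) hne

end

/-! ### the bundles `T_j(B)` -/

/-- the CAR used -/
def K5 : CAR 5 := car 5

section

variable (B : Bun2)

theorem isP_kron {S ι : Type} [Fintype S] [DecidableEq S] [Fintype ι] [DecidableEq ι]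
    {α β : S → ℤ} {a b : ι → ℤ} {M : Z × Z → Matrix S S ℂ} {N : Z × Z → Matrix ι ι ℂ}
    (hM : IsP α β M) (hN : IsP a b N) :
    IsP (fun p : S × ι => α p.1 + a p.2) (fun p : S × ι => β p.1 + b p.2)
      (fun z => M z ⊗ₖ N z) := by
  refine ⟨continuous_kron hM.cont hN.cont, fun z => ?_, fun z => ?_, hM.eqv.kron hN.eqv⟩
  · rw [← Matrix.mul_kronecker_mul, hM.idem, hN.idem]
  · rw [Matrix.conjTranspose_kronecker, hM.herm, hN.herm]

theorem isP_P (j : ℕ) (α β : K5.S → ℤ) : IsP α β (fun _ => K5.P j) := by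
  refine ⟨continuous_const, fun z => ?_, fun z => K5.P_herm j, Eqv.diag _⟩
  rw [K5.P_mul_P, if_pos rfl]

theorem eqv_P {α β : K5.S → ℤ} (j : ℕ) : Eqv α β α β (fun _ => K5.P j) := Eqv.diag _

/-- weights which are right on the part of degree `j` only -/
theorem isP_Pq (j : ℕ) (α β : K5.S → ℤ) (m n : ℤ) (hα : ∀ I, K5.deg I = j → α I = m)
    (hβ : ∀ I, K5.deg I = j → β I = n) : IsP α β (fun z => K5.P j * K5.q (yy z)) := by
  refine ⟨continuous_const.matrix_mul (continuous_q K5), fun z => ?_, fun z => ?_, ?_⟩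
  · rw [mul_assoc, ← mul_assoc (K5.q (yy z)), K5.q_P, mul_assoc, K5.q_idem (ip_yy z),
      ← mul_assoc, K5.P_mul_P, if_pos rfl]
  · rw [conjTranspose_mul, K5.q_herm, K5.P_herm, K5.q_P]
  · refine Eqv.weights (u := fun z => K5.P j * K5.q (yy z))
      ((eqv_P j).mul (eqv_q K5 (fun _ => 0) fun _ => 0)) ?_
    intro z I J hne
    unfold CAR.P at hne
    rw [diagonal_mul] at hne
    have h1 : K5.deg I = j := by
      by_contra h; rw [if_neg h, zero_mul] at hne; exact hne rfl
    have h2 : K5.deg J = j := by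
      by_contra h
      rw [q_apply K5 _ (fun h' => h (h'.symm.trans h1)), mul_zero] at hne; exact hne rfl
    rw [hα I h1, hα J h2, hβ I h1, hβ J h2]
    simp

/-- `T_j(B)` with weights shifted by `(m, n)` -/
theorem isT (j : ℕ) (m n : ℤ) : IsP (fun p : K5.S × B.ι => m + B.a p.2)
    (fun p : K5.S × B.ι => n + B.b p.2) (fun z => (K5.P j * K5.q (yy z)) ⊗ₖ B.e z) :=
  isP_kron (isP_Pq j (fun _ => m) (fun _ => n) m n (fun _ _ => rfl) (fun _ _ => rfl)) (isP_of B)

theorem isPB (j : ℕ) (m n : ℤ) : IsP (fun p : K5.S × B.ι => m + B.a p.2)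
    (fun p : K5.S × B.ι => n + B.b p.2) (fun z => (K5.P j) ⊗ₖ B.e z) :=
  isP_kron (isP_P j (fun _ => m) (fun _ => n)) (isP_of B)

variable {F : Bun2 → ℤ → ℤ → ℤ} {f : Bun → ℤ → ℤ}

theorem add_comm_fun {X : Type} (g : X → ℤ) (m : ℤ) :
    (fun p => m + g p) = fun p => (0 + g p) + m := by funext p; ring

/-- the rank one pieces -/
theorem isE (I : K5.S) (m n : ℤ) : IsP (fun p : K5.S × B.ι => m + B.a p.2)
    (fun p : K5.S × B.ι => n + B.b p.2)
    (fun z => (diagonal fun J => if J = I then (1 : ℂ) else 0) ⊗ₖ B.e z) := by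
  refine isP_kron (α := fun _ => m) (β := fun _ => n) ⟨continuous_const, fun z => ?_, fun z => ?_,
    Eqv.diag _⟩ (isP_of B)
  · rw [diagonal_mul_diagonal]
    congr 1; funext J; by_cases h : J = I <;> simp [h]
  · rw [diagonal_conjTranspose]
    congr 1; funext J; by_cases h : J = I <;> simp [h]

theorem F_E (D : IndexData F f) (I : K5.S) :
    ∀ᶠ p : ℤ × ℤ in atTop, F (isE B I 0 0).bun p.1 p.2 = F B p.1 p.2 := by
  have := F_iso D (isE B I 0 0) (isP_of B)
    (fun z => Matrix.of fun k (p : K5.S × B.ι) => if p.1 = I then B.e z k p.2 else 0) ?_ ?_ ?_ ?_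
  · exact this
  · refine continuous_matrix fun k p => ?_
    simp only [Matrix.of_apply]
    by_cases h : p.1 = I
    · simp only [h, if_true]; exact B.cont.matrix_elem _ _
    · simp only [h, if_false]; exact continuous_const
  · intro s t z k p
    simp only [Matrix.of_apply]
    by_cases h : p.1 = I
    · simp only [h, if_true, zero_add]; exact B.equiv s t z _ _
    · simp [h]
  · intro z
    ext p p'
    have he := congrFun (congrFun (B.idem z) p.2) p'.2
    have hh : ∀ i j, star (B.e z i j) = B.e z j i := fun i j => congrFun (congrFun (B.herm z) j) i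
    rw [Matrix.mul_apply] at he
    simp only [Matrix.mul_apply, Matrix.conjTranspose_apply, Matrix.of_apply,
      Matrix.kroneckerMap_apply, diagonal_apply]
    by_cases h : p.1 = I <;> by_cases h' : p'.1 = I
    · simp only [h, h', if_true, hh, one_mul]; exact he
    · have : I ≠ p'.1 := fun h'' => h' h''.symm
      simp [h, h', this]
    · have : p.1 ≠ I := h
      simp [h, h']
    · simp only [h, h', if_false, star_zero, zero_mul, Finset.sum_const_zero, ite_self]
  · intro z
    ext k k'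
    have he := congrFun (congrFun (B.idem z) k) k'
    have hh : ∀ i j, star (B.e z i j) = B.e z j i := fun i j => congrFun (congrFun (B.herm z) j) i
    rw [Matrix.mul_apply] at he
    simp only [Matrix.mul_apply, Matrix.conjTranspose_apply, Matrix.of_apply]
    rw [Fintype.sum_prod_type, Finset.sum_eq_single I]
    · simp only [if_true, hh]; exact he
    · intro J _ hJ
      simp [hJ]
    · intro h; exact absurd (Finset.mem_univ I) h

theorem P_eq_sum (j : ℕ) : K5.P j = ∑ I ∈ Finset.univ.filter (fun I => K5.deg I = j),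
    diagonal fun J => if J = I then (1 : ℂ) else 0 := by
  ext J J'
  unfold CAR.P
  rw [Matrix.sum_apply]
  by_cases h : J = J'
  · subst h
    simp only [diagonal_apply_eq]
    rw [Finset.sum_ite_eq]
    simp
  · rw [diagonal_apply_ne _ h]
    exact (Finset.sum_eq_zero fun I _ => diagonal_apply_ne _ h).symm

theorem sum_kron {τ : Type} {S S' ι κ : Type} (T : Finset τ) (M : τ → Matrix S S' ℂ)
    (N : Matrix ι κ ℂ) : (∑ i ∈ T, M i) ⊗ₖ N = ∑ i ∈ T, M i ⊗ₖ N := by
  ext p p'
  simp [Matrix.sum_apply, Finset.sum_mul]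

theorem F_PB (D : IndexData F f) (j : ℕ) :
    ∀ᶠ p : ℤ × ℤ in atTop, F (isPB B j 0 0).bun p.1 p.2 = (Nat.choose 5 j : ℤ) * F B p.1 p.2 := by
  have h1 := F_sum D (Finset.univ.filter (fun I => K5.deg I = j))
    (fun I z => (diagonal fun J => if J = I then (1 : ℂ) else 0) ⊗ₖ B.e z)
    (fun I => isE B I 0 0) (isPB B j 0 0) (fun z => by rw [P_eq_sum, sum_kron]) (by
      intro I _ I' _ hne z
      rw [← Matrix.mul_kronecker_mul, diagonal_mul_diagonal]
      have : (fun J => (if J = I then (1 : ℂ) else 0) * (if J = I' then (1 : ℂ) else 0)) =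
          fun _ => 0 := by
        funext J
        by_cases h : J = I
        · subst h; simp [hne]
        · simp [h]
      rw [this, diagonal_zero, Matrix.zero_kronecker])
  have h2 : ∀ᶠ p : ℤ × ℤ in atTop, ∀ I ∈ Finset.univ.filter (fun I => K5.deg I = j),
      F (isE B I 0 0).bun p.1 p.2 = F B p.1 p.2 := by
    rw [Filter.eventually_all_finset]
    intro I _
    exact F_E B D I
  filter_upwards [h1, h2] with p h1 h2
  rw [h1, Finset.sum_congr rfl h2, Finset.sum_const, nsmul_eq_mul]
  congr 2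
  rw [← K5.card j, Finset.sum_boole]
  simp

end

end Pool.Agent.TH828.SD
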