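import Pool.Agent.TH828.SD.Steps

/-!
# Steps 1 and 3, second part (helper828, for project SD of helper179)
-/

open scoped Topology Kronecker ComplexOrder
open Filter Matrix

noncomputable section

namespace Pool.Agent.TH828.SD
open Pool.Agent.TH179.SD

theorem sub_kron {S S' ι κ : Type} (M M' : Matrix S S' ℂ)
    (N : Matrix ι κ ℂ) : (M - M') ⊗ₖ N = M ⊗ₖ N - M' ⊗ₖ N := by
  ext p p'
  simp [sub_mul]

section general

variable {F : Bun2 → ℤ → ℤ → ℤ} {f : Bun → ℤ → ℤ}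
variable {ι : Type} [Fintype ι] [DecidableEq ι] {a b c d : ι → ℤ}

theorem F_weights (D : IndexData F f) {e : Z × Z → Matrix ι ι ℂ} (hA : IsP a b e)
    (hB : IsP c d e) (h : ∀ z i j, e z i j ≠ 0 → c i = a i ∧ d i = b i) :
    ∀ᶠ p : ℤ × ℤ in atTop, F hA.bun p.1 p.2 = F hB.bun p.1 p.2 := by
  refine F_iso D hA hB e hA.cont (hA.eqv.weights ?_) (fun z => ?_) fun z => ?_
  · intro z i j hne
    rw [(h z i j hne).1, (h z i j hne).2]
    exact ⟨rfl, rfl⟩
  · rw [hA.herm, hA.idem]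
  · rw [hA.herm, hA.idem]

theorem F_weq {e : Z × Z → Matrix ι ι ℂ} (hA : IsP a b e)
    (hB : IsP c d e) (h1 : a = c) (h2 : b = d) : F hA.bun = F hB.bun := by
  subst h1; subst h2; rfl

theorem isP_sub {e e1 : Z × Z → Matrix ι ι ℂ} (h : IsP a b e) (h1 : IsP a b e1)
    (he : ∀ z, e z * e1 z = e1 z) : IsP a b fun z => e z - e1 z := by
  have he' : ∀ z, e1 z * e z = e1 z := by
    intro z
    have := congrArg conjTranspose (he z)
    rwa [conjTranspose_mul, h.herm, h1.herm] at this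
  refine ⟨h.cont.sub h1.cont, fun z => ?_, fun z => ?_, h.eqv.sub h1.eqv⟩
  · rw [sub_mul, mul_sub, mul_sub, h.idem, h1.idem, he, he', sub_self, sub_zero]
  · rw [conjTranspose_sub, h.herm, h1.herm]

theorem F_sub (D : IndexData F f) {e e1 : Z × Z → Matrix ι ι ℂ} (h : IsP a b e)
    (h1 : IsP a b e1) (he : ∀ z, e z * e1 z = e1 z) :
    ∀ᶠ p : ℤ × ℤ in atTop, F h.bun p.1 p.2 = F h1.bun p.1 p.2 + F (isP_sub h h1 he).bun p.1 p.2 := by
  have he' : ∀ z, e1 z * e z = e1 z := by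
    intro z
    have := congrArg conjTranspose (he z)
    rwa [conjTranspose_mul, h.herm, h1.herm] at this
  refine F_add D h h1 (isP_sub h h1 he) (fun z => by abel) fun z => ?_
  rw [mul_sub, he', h1.idem, sub_self]

end general

section

variable {F : Bun2 → ℤ → ℤ → ℤ} {f : Bun → ℤ → ℤ} (B : Bun2)

theorem F_T_shift (D : IndexData F f) (j : ℕ) (m n : ℤ) :
    ∀ᶠ p : ℤ × ℤ in atTop, F (isT B j m n).bun p.1 p.2 =
      F (isT B j 0 0).bun (p.1 + m) (p.2 + n) := by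
  have h1 : (fun p : K5.S × B.ι => m + B.a p.2) = fun p => (0 + B.a p.2) + m := by
    funext p; ring
  have h2 : (fun p : K5.S × B.ι => n + B.b p.2) = fun p => (0 + B.b p.2) + n := by
    funext p; ring
  have hB : IsP (fun p : K5.S × B.ι => (0 + B.a p.2) + m) (fun p => (0 + B.b p.2) + n)
      (fun z => (K5.P j * K5.q (yy z)) ⊗ₖ B.e z) := by
    rw [← h1, ← h2]; exact isT B j m n
  have h3 := F_shift D m n (isT B j 0 0) hB
  rw [F_weq (F := F) (isT B j m n) hB h1 h2]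
  exact h3

theorem F_PB_shift (D : IndexData F f) (j : ℕ) (m n : ℤ) :
    ∀ᶠ p : ℤ × ℤ in atTop, F (isPB B j m n).bun p.1 p.2 =
      F (isPB B j 0 0).bun (p.1 + m) (p.2 + n) := by
  have h1 : (fun p : K5.S × B.ι => m + B.a p.2) = fun p => (0 + B.a p.2) + m := by
    funext p; ring
  have h2 : (fun p : K5.S × B.ι => n + B.b p.2) = fun p => (0 + B.b p.2) + n := by
    funext p; ring
  have hB : IsP (fun p : K5.S × B.ι => (0 + B.a p.2) + m) (fun p => (0 + B.b p.2) + n)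
      (fun z => K5.P j ⊗ₖ B.e z) := by
    rw [← h1, ← h2]; exact isPB B j m n
  have h3 := F_shift D m n (isPB B j 0 0) hB
  rw [F_weq (F := F) (isPB B j m n) hB h1 h2]
  exact h3

theorem F_T_zero (D : IndexData F f) :
    ∀ᶠ p : ℤ × ℤ in atTop, F (isT B 0 0 0).bun p.1 p.2 = F B p.1 p.2 := by
  have h1 : F (isT B 0 0 0).bun = F (isPB B 0 0 0).bun := by
    refine F_congr _ _ fun z => ?_
    have h := K5.q_add (ip_yy z)
    have h2 : K5.P 0 * K5.q (yy z) = K5.P 0 := by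
      calc K5.P 0 * K5.q (yy z) = K5.P 0 * K5.q (yy z) +
            (K5.P 0 * K5.cre (yy z)) * (K5.cre (yy z))ᴴ := by
            rw [K5.P_zero_mul_cre, zero_mul, add_zero]
        _ = K5.P 0 * (K5.q (yy z) + K5.cre (yy z) * (K5.cre (yy z))ᴴ) := by
            rw [mul_add, mul_assoc]
        _ = K5.P 0 := by rw [h, mul_one]
    rw [h2]
  rw [h1]
  filter_upwards [F_PB B D 0] with p hp
  rw [hp]; simp

theorem F_T_succ (D : IndexData F f) (j : ℕ) :
    ∀ᶠ p : ℤ × ℤ in atTop, F (isT B (j + 1) 0 0).bun p.1 p.2 +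
      F (isT B j 0 0).bun p.1 (p.2 + 1) = (Nat.choose 5 (j + 1) : ℤ) * F B p.1 p.2 := by
  have hmul : ∀ z, (K5.P (j + 1) ⊗ₖ B.e z) * ((K5.P (j + 1) * K5.q (yy z)) ⊗ₖ B.e z) =
      (K5.P (j + 1) * K5.q (yy z)) ⊗ₖ B.e z := by
    intro z
    rw [← Matrix.mul_kronecker_mul, ← mul_assoc, K5.P_mul_P, if_pos rfl, B.idem]
  have h1 := F_sub D (isPB B (j + 1) 0 0) (isT B (j + 1) 0 0) hmul
  have h2 := F_iso D (isP_sub (isPB B (j + 1) 0 0) (isT B (j + 1) 0 0) hmul) (isT B j 0 1)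
    (fun z => (K5.P j * (K5.cre (yy z))ᴴ) ⊗ₖ B.e z) ?_ ?_ ?_ ?_
  · filter_upwards [h1, h2, F_T_shift B D j 0 1, F_PB B D (j + 1)] with p h1 h2 h3 h4
    rw [h4, h2, h3] at h1
    rw [h1, add_zero]
  · exact continuous_kron (continuous_const.matrix_mul
      (continuous_cre K5 continuous_yy).matrix_conjTranspose) B.cont
  · refine Eqv.kron (α := fun _ => 0) (β := fun _ => 1) (α' := fun _ => 0) (β' := fun _ => 0)
      ?_ B.equiv
    refine Eqv.mul (eqv_P (α := fun _ => 0) (β := fun _ => 1) j) ?_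
    refine Eqv.ct ?_
    refine eqv_cre K5 (m := 0) (n := -1) yy_rot fun I J h => ⟨by ring, by ring⟩
  · intro z
    have h := K5.q_add (ip_yy z)
    have h' : K5.cre (yy z) * (K5.cre (yy z))ᴴ = 1 - K5.q (yy z) := by
      rw [← h]; abel
    rw [Matrix.conjTranspose_kronecker, ← Matrix.mul_kronecker_mul, B.herm, B.idem,
      conjTranspose_mul, conjTranspose_conjTranspose, K5.P_herm, mul_assoc, ← mul_assoc (K5.P j),
      K5.P_mul_P, if_pos rfl, ← mul_assoc, ← K5.P_succ_mul_cre, mul_assoc, h', mul_sub, mul_one,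
      sub_eq_add_neg, Matrix.add_kronecker, sub_eq_add_neg]
    congr 1
    ext p p'
    simp [Matrix.kroneckerMap_apply]
  · intro z
    rw [Matrix.conjTranspose_kronecker, ← Matrix.mul_kronecker_mul, B.herm, B.idem,
      conjTranspose_mul, conjTranspose_conjTranspose, K5.P_herm, mul_assoc,
      ← mul_assoc ((K5.cre (yy z))ᴴ)]
    change (K5.P j * (K5.q (yy z) * K5.P j)) ⊗ₖ B.e z = _
    rw [K5.q_P, ← mul_assoc, K5.P_mul_P, if_pos rfl]

/-- Step 3 -/
theorem F_T (D : IndexData F f) (j : ℕ) :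
    ∀ᶠ p : ℤ × ℤ in atTop, F (isT B j 0 0).bun p.1 p.2 =
      ∑ i ∈ Finset.range (j + 1), (-1 : ℤ) ^ i * (Nat.choose 5 (j - i) : ℤ) * F B p.1 (p.2 + i) := by
  induction j with
  | zero =>
    filter_upwards [F_T_zero B D] with p hp
    rw [hp]; simp
  | succ j ih =>
    filter_upwards [F_T_succ B D j, ev_shift ih 0 1] with p h1 h2
    rw [Finset.sum_range_succ']
    rw [add_zero] at h2
    have h3 : F (isT B (j + 1) 0 0).bun p.1 p.2 = (Nat.choose 5 (j + 1) : ℤ) * F B p.1 p.2 -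
        F (isT B j 0 0).bun p.1 (p.2 + 1) := by linarith
    rw [h3, h2]
    have h4 : ∑ k ∈ Finset.range (j + 1), (-1 : ℤ) ^ (k + 1) * (Nat.choose 5 (j + 1 - (k + 1)) : ℤ) *
        F B p.1 (p.2 + ((k + 1 : ℕ) : ℤ)) = - ∑ i ∈ Finset.range (j + 1),
          (-1 : ℤ) ^ i * (Nat.choose 5 (j - i) : ℤ) * F B p.1 (p.2 + 1 + i) := by
      rw [← Finset.sum_neg_distrib]
      refine Finset.sum_congr rfl fun k _ => ?_
      rw [Nat.add_sub_add_right, pow_succ]
      have : p.2 + ((k + 1 : ℕ) : ℤ) = p.2 + 1 + k := by push_cast; ring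
      rw [this]; ring
    rw [h4]
    simp
    ring

/-! ### Step 1: the Koszul complex -/

/-- even part and odd part -/
theorem even_sum : (1 / 2 : ℂ) • (1 + K5.eps) =
    ∑ j ∈ (Finset.range 6).filter (fun j => j % 2 = 0), K5.P j := by
  have h1 : K5.eps = ∑ j ∈ Finset.range 6, (-1 : ℂ) ^ j • K5.P j := by
    calc K5.eps = K5.eps * ∑ j ∈ Finset.range 6, K5.P j := by rw [K5.sum_P, mul_one]
      _ = _ := by
        rw [Finset.mul_sum]
        exact Finset.sum_congr rfl fun j _ => K5.eps_mul_P j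
  have h2 : (1 : Matrix K5.S K5.S ℂ) = ∑ j ∈ Finset.range 6, K5.P j := K5.sum_P.symm
  rw [h1, h2, ← Finset.sum_add_distrib, Finset.smul_sum, Finset.sum_filter]
  refine Finset.sum_congr rfl fun j _ => ?_
  rcases Nat.mod_two_eq_zero_or_one j with h | h
  · rw [if_pos h, Even.neg_one_pow (Nat.even_iff.2 h), one_smul, ← two_smul ℂ, smul_smul]
    norm_num
  · rw [if_neg (by omega), Odd.neg_one_pow (Nat.odd_iff.2 h)]
    simp

theorem odd_sum : (1 / 2 : ℂ) • (1 - K5.eps) =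
    ∑ j ∈ (Finset.range 6).filter (fun j => j % 2 = 1), K5.P j := by
  have h1 : K5.eps = ∑ j ∈ Finset.range 6, (-1 : ℂ) ^ j • K5.P j := by
    calc K5.eps = K5.eps * ∑ j ∈ Finset.range 6, K5.P j := by rw [K5.sum_P, mul_one]
      _ = _ := by
        rw [Finset.mul_sum]
        exact Finset.sum_congr rfl fun j _ => K5.eps_mul_P j
  have h2 : (1 : Matrix K5.S K5.S ℂ) = ∑ j ∈ Finset.range 6, K5.P j := K5.sum_P.symm
  rw [h1, h2, ← Finset.sum_sub_distrib, Finset.smul_sum, Finset.sum_filter]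
  refine Finset.sum_congr rfl fun j _ => ?_
  rcases Nat.mod_two_eq_zero_or_one j with h | h
  · rw [if_neg (by omega), Even.neg_one_pow (Nat.even_iff.2 h)]
    simp
  · rw [if_pos h, Odd.neg_one_pow (Nat.odd_iff.2 h), neg_smul, one_smul, sub_neg_eq_add,
      ← two_smul ℂ, smul_smul]
    norm_num

/-- `P_j ⊗ B` with the weights of the Koszul complex -/
theorem isPD (j : ℕ) : IsP (fun p : K5.S × B.ι => (K5.deg p.1 : ℤ) + B.a p.2)
    (fun p : K5.S × B.ι => 0 + B.b p.2) (fun z => (K5.P j) ⊗ₖ B.e z) :=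
  isP_kron (isP_P j (fun I => (K5.deg I : ℤ)) (fun _ => 0)) (isP_of B)

theorem F_PD (D : IndexData F f) (j : ℕ) :
    ∀ᶠ p : ℤ × ℤ in atTop, F (isPD B j).bun p.1 p.2 =
      (Nat.choose 5 j : ℤ) * F B (p.1 + j) p.2 := by
  have h1 := F_weights D (isPD B j) (isPB B j j 0) (by
    intro z p p' hne
    have h1 : K5.deg p.1 = j := by
      by_contra h
      apply hne
      rw [Matrix.kroneckerMap_apply]
      unfold CAR.P
      by_cases h2 : p.1 = p'.1
      · rw [h2, diagonal_apply_eq, ← h2, if_neg h, zero_mul]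
      · rw [diagonal_apply_ne _ h2, zero_mul]
    rw [h1]
    exact ⟨rfl, rfl⟩)
  filter_upwards [h1, F_PB_shift B D j j 0, ev_shift (F_PB B D j) j 0] with p h1 h2 h3
  rw [h1, h2, h3, add_zero]

theorem koszul (D : IndexData F f) :
    ∀ᶠ p : ℤ × ℤ in atTop,
      ∑ j ∈ (Finset.range 6).filter (fun j => j % 2 = 0), (Nat.choose 5 j : ℤ) * F B (p.1 + j) p.2 =
      ∑ j ∈ (Finset.range 6).filter (fun j => j % 2 = 1), (Nat.choose 5 j : ℤ) *
        F B (p.1 + j) p.2 := by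
  have horth : ∀ (T : Finset ℕ), ∀ i ∈ T, ∀ j ∈ T, i ≠ j → ∀ z : Z × Z,
      (K5.P i ⊗ₖ B.e z) * (K5.P j ⊗ₖ B.e z) = 0 := by
    intro T i _ j _ hij z
    rw [← Matrix.mul_kronecker_mul, K5.P_mul_P, if_neg hij, Matrix.zero_kronecker]
  have h0 := isP_sum ((Finset.range 6).filter (fun j => j % 2 = 0))
    (fun j z => K5.P j ⊗ₖ B.e z) (isPD B) (horth _)
  have h1 := isP_sum ((Finset.range 6).filter (fun j => j % 2 = 1))
    (fun j z => K5.P j ⊗ₖ B.e z) (isPD B) (horth _)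
  have he : IsP (fun p : K5.S × B.ι => (K5.deg p.1 : ℤ) + B.a p.2)
      (fun p : K5.S × B.ι => 0 + B.b p.2) (fun z => (1 : Matrix K5.S K5.S ℂ) ⊗ₖ B.e z) :=
    isP_kron (α := fun I => (K5.deg I : ℤ)) (β := fun _ => 0)
      ⟨continuous_const, fun z => by rw [mul_one], fun z => conjTranspose_one, Eqv.one⟩ (isP_of B)
  have hc1 : Continuous fun z => K5.cre (xx z) := continuous_cre K5 continuous_xx
  have hc2 : Continuous fun z => K5.cl (xx z) := hc1.add hc1.matrix_conjTranspose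
  have hq1 : Eqv (fun I => (K5.deg I : ℤ)) (fun _ => 0) (fun I => (K5.deg I : ℤ)) (fun _ => 0)
      (fun z => K5.cre (xx z)) := by
    refine eqv_cre K5 (m := 1) (n := 0) xx_rot fun I J h => ⟨?_, by ring⟩
    rw [h]; push_cast; ring
  have hq2 : Eqv (fun I => (K5.deg I : ℤ)) (fun _ => 0) (fun I => (K5.deg I : ℤ)) (fun _ => 0)
      (fun z => K5.cl (xx z)) := hq1.add hq1.ct
  have key := odd_iso D (e := fun z => (1 : Matrix K5.S K5.S ℂ) ⊗ₖ B.e z)
    (d := fun z => K5.cl (xx z) ⊗ₖ (1 : Matrix B.ι B.ι ℂ)) (γ := K5.eps ⊗ₖ (1 : Matrix B.ι B.ι ℂ))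
    he (continuous_kron hc2 continuous_const)
    (hq2.kron Eqv.one) ?_ ?_ ?_ ?_ h0 h1 ?_ ?_
  · have h0' := F_sum D ((Finset.range 6).filter (fun j => j % 2 = 0))
      (fun j z => K5.P j ⊗ₖ B.e z) (isPD B) h0 (fun z => rfl) (horth _)
    have h1' := F_sum D ((Finset.range 6).filter (fun j => j % 2 = 1))
      (fun j z => K5.P j ⊗ₖ B.e z) (isPD B) h1 (fun z => rfl) (horth _)
    have hall : ∀ᶠ p : ℤ × ℤ in atTop, ∀ j ∈ Finset.range 6, F (isPD B j).bun p.1 p.2 =
      (Nat.choose 5 j : ℤ) * F B (p.1 + j) p.2 := by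
      rw [Filter.eventually_all_finset]
      exact fun j _ => F_PD B D j
    filter_upwards [key, h0', h1', hall] with p h1 h2 h3 h4
    rw [h2, h3] at h1
    rw [← Finset.sum_congr rfl fun j hj => h4 j (Finset.mem_filter.1 hj).1, h1]
    exact Finset.sum_congr rfl fun j hj => h4 j (Finset.mem_filter.1 hj).1
  · intro z
    rw [← Matrix.mul_kronecker_mul, ← Matrix.mul_kronecker_mul, mul_one, one_mul, one_mul, mul_one]
  · intro z
    rw [← Matrix.mul_kronecker_mul, ← Matrix.mul_kronecker_mul, mul_one, one_mul, one_mul, mul_one]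
  · intro z
    rw [← Matrix.mul_kronecker_mul, ← Matrix.mul_kronecker_mul, K5.eps_cl]
    ext p p'
    simp [Matrix.kroneckerMap_apply]
  · intro z
    rw [← Matrix.mul_kronecker_mul, K5.cl_sq, ip_xx, one_smul, mul_one, Matrix.one_kronecker_one,
      one_mul, add_sub_cancel, Matrix.det_one]
    exact one_ne_zero
  · intro z
    rw [← sum_kron, ← even_sum, ← Matrix.one_kronecker_one, ← Matrix.add_kronecker,
      ← Matrix.mul_kronecker_mul, mul_one, one_mul, Matrix.smul_kronecker]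
  · intro z
    rw [← sum_kron, ← odd_sum, ← Matrix.one_kronecker_one, ← sub_kron,
      ← Matrix.mul_kronecker_mul, mul_one, one_mul, Matrix.smul_kronecker]

end

end Pool.Agent.TH828.SD
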